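import Pool.Agent.Helper84.SV.Main

open Set Finset

set_option linter.unusedSectionVars false

namespace Pool.SV

/-- A nontrivial torsion free normal subgroup that is virtually solvable contains a nontrivial
solvable subgroup that is normal in the whole group. -/
theorem exists_solvable_normal {G : Type*} [Group G] (N S : Subgroup G) [hNn : N.Normal]
    (hfin : S.relIndex N ≠ 0) (hS : Group.IsSolvable S)
    (htf : ∀ g : G, ∀ m : ℕ, 0 < m → g ^ m = 1 → g = 1) (hN : N ≠ ⊥) :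
    ∃ R : Subgroup G, R.Normal ∧ R ≠ ⊥ ∧ Group.IsSolvable R := by
  have hMpos : 0 < (S.relIndex N).factorial := Nat.factorial_pos _
  set M := (S.relIndex N).factorial with hM
  have hdvd : ∀ m, 0 < m → m ≤ S.relIndex N → m ∣ M := fun m h0 h1 => Nat.dvd_factorial h0 h1
  refine ⟨Subgroup.closure {y | ∃ x ∈ N, x ^ M = y}, ?_, ?_, ?_⟩
  · constructor
    intro n hn g
    induction hn using Subgroup.closure_induction with
    | mem y hy =>
      obtain ⟨x, hx, rfl⟩ := hy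
      apply Subgroup.subset_closure
      exact ⟨g * x * g⁻¹, hNn.conj_mem x hx g, by rw [conj_pow]⟩
    | one =>
      rw [mul_one, mul_inv_cancel]
      exact Subgroup.one_mem _
    | mul x y _ _ hx hy =>
      have : g * (x * y) * g⁻¹ = (g * x * g⁻¹) * (g * y * g⁻¹) := by group
      rw [this]
      exact Subgroup.mul_mem _ hx hy
    | inv x _ hx =>
      have : g * x⁻¹ * g⁻¹ = (g * x * g⁻¹)⁻¹ := by group
      rw [this]
      exact Subgroup.inv_mem _ hx
  · obtain ⟨a, ha⟩ := Subgroup.ne_bot_iff_exists_ne_one.mp hN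
    intro h
    have h1 : (a : G) ^ M ∈ Subgroup.closure {y | ∃ x ∈ N, x ^ M = y} :=
      Subgroup.subset_closure ⟨a, a.2, rfl⟩
    rw [h, Subgroup.mem_bot] at h1
    exact ha (Subtype.ext (htf a M hMpos h1))
  · have hle : Subgroup.closure {y | ∃ x ∈ N, x ^ M = y} ≤ S := by
      rw [Subgroup.closure_le]
      rintro y ⟨x, hx, rfl⟩
      exact (Subgroup.pow_mem_of_relIndex_ne_zero_of_dvd hfin hx hdvd).1
    exact Group.isSolvable_of_isSolvable_injective (Subgroup.inclusion_injective hle)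

/-- Closed convex affine manifolds whose fundamental group has a nontrivial virtually solvable
normal subgroup: every cycle of top degree has zero seminorm. -/
theorem main (n : ℕ)
    (Γ : Subgroup (EuclideanSpace ℝ (Fin (n + 1)) ≃ᵃ[ℝ] EuclideanSpace ℝ (Fin (n + 1))))
    (X : Set (EuclideanSpace ℝ (Fin (n + 1))))
    (hopen : IsOpen X) (hconv : Convex ℝ X) (hne : X.Nonempty)
    (hinv : ∀ g ∈ Γ, ∀ x ∈ X, g x ∈ X)
    (hfree : ∀ g ∈ Γ, ∀ x ∈ X, g x = x → g = 1)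
    (hpd : ∀ K ⊆ X, IsCompact K → {g | g ∈ Γ ∧ ∃ x ∈ K, g x ∈ K}.Finite)
    (hcc : ∃ K ⊆ X, IsCompact K ∧ ∀ x ∈ X, ∃ g ∈ Γ, g x ∈ K)
    (N S : Subgroup (EuclideanSpace ℝ (Fin (n + 1)) ≃ᵃ[ℝ] EuclideanSpace ℝ (Fin (n + 1))))
    (hNΓ : N ≤ Γ) (hNn : ∀ g ∈ Γ, ∀ a ∈ N, g * a * g⁻¹ ∈ N) (hN : N ≠ ⊥)
    (hSfin : S.relIndex N ≠ 0) (hS : Group.IsSolvable S)
    (M : Type*) [TopologicalSpace M] (π : X → M) (hπ : Topology.IsQuotientMap π)
    (hfib : ∀ x y : X, π x = π y ↔ ∃ g ∈ Γ, g (x : EuclideanSpace ℝ (Fin (n + 1))) = y)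
    (z : Chain M (n + 1)) (hz : bd M n z = 0) (ε : ℝ) (hε : 0 < ε) :
    ∃ b : Chain M (n + 2), nrm (z + bd M (n + 1) b) < ε := by
  let D : Geo (EuclideanSpace ℝ (Fin (n + 1))) :=
    { Γ := Γ
      X := X
      isOpen := hopen
      convex := hconv
      nonempty := hne
      inv := hinv
      free := hfree
      pd := fun K hK hc => hpd K hK hc }
  have hrank : Module.finrank ℝ (EuclideanSpace ℝ (Fin (n + 1))) = n + 1 := by
    simp
  have htf : ∀ g : D.Γ, ∀ m : ℕ, 0 < m → g ^ m = 1 → g = 1 := by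
    intro g m hm h
    apply Subtype.ext
    apply eq_one_of_pow D g.1 g.2 m hm
    exact congrArg Subtype.val h
  have hNn' : (N.subgroupOf D.Γ).Normal := by
    constructor
    intro a ha g
    rw [Subgroup.mem_subgroupOf] at ha ⊢
    exact hNn g.1 g.2 a.1 ha
  have hN' : N.subgroupOf D.Γ ≠ ⊥ := by
    obtain ⟨a, ha⟩ := Subgroup.ne_bot_iff_exists_ne_one.mp hN
    intro h
    have h1 : (⟨a.1, hNΓ a.2⟩ : D.Γ) ∈ N.subgroupOf D.Γ := by
      rw [Subgroup.mem_subgroupOf]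
      exact a.2
    rw [h, Subgroup.mem_bot] at h1
    exact ha (Subtype.ext (congrArg (fun w : D.Γ => w.1) h1))
  have hSfin' : (S.subgroupOf D.Γ).relIndex (N.subgroupOf D.Γ) ≠ 0 := by
    rw [Subgroup.relIndex_subgroupOf hNΓ]
    exact hSfin
  have hS' : Group.IsSolvable (S.subgroupOf D.Γ) := by
    let f : S.subgroupOf D.Γ →* S :=
      { toFun := fun x => ⟨x.1.1, x.2⟩
        map_one' := rfl
        map_mul' := fun _ _ => rfl }
    have hf : Function.Injective f := by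
      intro x y hxy
      apply Subtype.ext
      apply Subtype.ext
      exact congrArg (fun w : S => w.1) hxy
    exact Group.isSolvable_of_isSolvable_injective hf
  obtain ⟨R, hRn, hR1, hRs⟩ := exists_solvable_normal (N.subgroupOf D.Γ) (S.subgroupOf D.Γ)
    hSfin' hS' htf hN'
  have hV : Vanish D := vanish_of_solvable D (by rw [hrank]; omega) R hR1 hcc
  refine of_vanish D hV M π hπ ?_ n hrank z hz ε hε
  intro x y
  rw [hfib]
  constructor
  · rintro ⟨g, hg, h⟩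
    exact ⟨⟨g, hg⟩, Subtype.ext h⟩
  · rintro ⟨g, h⟩
    exact ⟨g.1, g.2, congrArg Subtype.val h⟩

/-- Quotients of sharp convex cones by discrete groups of linear maps. -/
theorem main_cone (n : ℕ)
    (Γ : Subgroup (EuclideanSpace ℝ (Fin (n + 1)) ≃ᵃ[ℝ] EuclideanSpace ℝ (Fin (n + 1))))
    (C : Set (EuclideanSpace ℝ (Fin (n + 1))))
    (hopen : IsOpen C) (hconv : Convex ℝ C) (hne : C.Nonempty)
    (hcone : ∀ t : ℝ, 0 < t → ∀ x ∈ C, t • x ∈ C)
    (hsharp : ∀ v : EuclideanSpace ℝ (Fin (n + 1)), v ≠ 0 → ∃ x ∈ C, ∃ t : ℝ, x + t • v ∉ C)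
    (hlin : ∀ g ∈ Γ, g 0 = 0)
    (hinv : ∀ g ∈ Γ, ∀ x ∈ C, g x ∈ C)
    (hfree : ∀ g ∈ Γ, ∀ x ∈ C, g x = x → g = 1)
    (hpd : ∀ K ⊆ C, IsCompact K → {g | g ∈ Γ ∧ ∃ x ∈ K, g x ∈ K}.Finite)
    (hcc : ∃ K ⊆ C, IsCompact K ∧ ∀ x ∈ C, ∃ g ∈ Γ, g x ∈ K)
    (M : Type*) [TopologicalSpace M] (π : C → M) (hπ : Topology.IsQuotientMap π)
    (hfib : ∀ x y : C, π x = π y ↔ ∃ g ∈ Γ, g (x : EuclideanSpace ℝ (Fin (n + 1))) = y)
    (z : Chain M (n + 1)) (hz : bd M n z = 0) (ε : ℝ) (hε : 0 < ε) :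
    ∃ b : Chain M (n + 2), nrm (z + bd M (n + 1) b) < ε := by
  let D : Geo (EuclideanSpace ℝ (Fin (n + 1))) :=
    { Γ := Γ
      X := C
      isOpen := hopen
      convex := hconv
      nonempty := hne
      inv := hinv
      free := hfree
      pd := fun K hK hc => hpd K hK hc }
  obtain ⟨w, hwΓ, hw1, hwc⟩ := cone_center D hcone hsharp hlin hcc (by simp)
  have hsolv : Group.IsSolvable (Subgroup.zpowers w) :=
    Group.isSolvable_of_comm (by
      rintro ⟨_, m, rfl⟩ ⟨_, m', rfl⟩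
      exact Subtype.ext (zpow_mul_comm w m m'))
  refine main n Γ C hopen hconv hne hinv hfree hpd hcc (Subgroup.zpowers w) (Subgroup.zpowers w)
    (by rw [Subgroup.zpowers_le]; exact hwΓ) ?_ ?_ (by rw [Subgroup.relIndex_self]; exact one_ne_zero)
    hsolv M π hπ hfib z hz ε hε
  · rintro g hg _ ⟨m, rfl⟩
    have hc : Commute g w := hwc g hg
    refine ⟨m, ?_⟩
    change w ^ m = g * w ^ m * g⁻¹
    rw [(hc.zpow_right m).eq, mul_inv_cancel_right]
  · rw [Ne, Subgroup.zpowers_eq_bot]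
    exact hw1

end Pool.SV
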