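import Pool.Agent.Helper84.SV.Mods

open Set Finset

namespace Pool.SV

/-! ### General facts -/

theorem push_single {A B : Type*} (f : A → B) (l : List A) :
    push (fun a => Finsupp.single (f a) (1 : ℝ)) l = Finsupp.single (l.map f) 1 := by
  induction l with
  | nil => rfl
  | cons a l ih =>
    simp only [push, List.map_cons]
    rw [Finsupp.sum_single_index (by simp), one_smul, ih]
    simp [cone]

theorem normalised_single {A B : Type*} (f : A → B) :
    Normalised (fun a => Finsupp.single (f a) (1 : ℝ)) := by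
  intro a
  rw [Finsupp.sum_single_index rfl]

theorem equiv_single (Γ : Type*) {A B : Type*} [Group Γ] [MulAction Γ A] [MulAction Γ B]
    (f : A → B) (hf : ∀ (g : Γ) a, f (g • a) = g • f a) :
    Equiv' Γ (fun a => Finsupp.single (f a) (1 : ℝ)) := by
  intro g a
  simp only [Finsupp.mapDomain_single, hf]

theorem dual_push_single {A B : Type*} (f : A → B) (β : List B → ℝ) (l : List A) :
    dual (push (fun a => Finsupp.single (f a) (1 : ℝ))) β l = β (l.map f) := by
  unfold dual
  rw [push_single]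
  simp [pair]

theorem pair_eq_sum {B : Type*} (β : List B → ℝ) (c : L B) :
    pair β c = c.sum (fun l a => a * β l) := by
  unfold pair
  rw [Finsupp.linearCombination_apply]
  rfl

theorem abs_pair_le {B : Type*} (β : List B → ℝ) (c : L B) (C : ℝ)
    (h : ∀ l ∈ c.support, |β l| ≤ C) : |pair β c| ≤ (c.sum fun _ a => |a|) * C := by
  rw [pair_eq_sum, Finsupp.sum, Finsupp.sum, Finset.sum_mul]
  refine (Finset.abs_sum_le_sum_abs _ _).trans (Finset.sum_le_sum fun l hl => ?_)
  rw [abs_mul]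
  exact mul_le_mul_of_nonneg_left (h l hl) (abs_nonneg _)

theorem lin_single {A B : Type*} (T : List A → L B) (l : List A) (c : ℝ) :
    lin T (Finsupp.single l c) = c • T l := by
  unfold lin
  rw [Finsupp.linearCombination_single]

theorem lin_eq_sum {A B : Type*} (T : List A → L B) (c : L A) :
    lin T c = c.sum (fun l a => a • T l) := by
  unfold lin
  rw [Finsupp.linearCombination_apply]

theorem mem_support_lin {A B : Type*} (T : List A → L B) (c : L A) (l' : List B)
    (h : l' ∈ (lin T c).support) : ∃ l ∈ c.support, l' ∈ (T l).support := by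
  classical
  rw [lin_eq_sum] at h
  have h2 := Finsupp.support_sum h
  rw [Finset.mem_biUnion] at h2
  obtain ⟨l, hl, hl'⟩ := h2
  exact ⟨l, hl, Finsupp.support_smul hl'⟩

/-- The ℓ¹-norm of a tuple chain. -/
noncomputable def nr {B : Type*} (c : L B) : ℝ := c.sum fun _ a => |a|

theorem nr_nonneg {B : Type*} (c : L B) : 0 ≤ nr c :=
  Finset.sum_nonneg fun _ _ => abs_nonneg _

theorem nr_add {B : Type*} (c c' : L B) : nr (c + c') ≤ nr c + nr c' := by
  classical
  unfold nr
  rw [Finsupp.sum_of_support_subset (c + c') (Finsupp.support_add) _ (by simp),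
    Finsupp.sum_of_support_subset c (Finset.subset_union_left (s₂ := c'.support)) _ (by simp),
    Finsupp.sum_of_support_subset c' (Finset.subset_union_right (s₁ := c.support)) _ (by simp),
    ← Finset.sum_add_distrib]
  exact Finset.sum_le_sum fun l _ => abs_add_le _ _

theorem nr_smul {B : Type*} (a : ℝ) (c : L B) : nr (a • c) = |a| * nr c := by
  unfold nr
  rw [Finsupp.sum_smul_index' (by simp), Finsupp.sum, Finsupp.sum, Finset.mul_sum]
  simp [abs_mul]

theorem nr_lin_le {A B : Type*} (T : List A → L B) (c : L A) (C : ℝ)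
    (h : ∀ l ∈ c.support, nr (T l) ≤ C) : nr (lin T c) ≤ nr c * C := by
  classical
  induction c using Finsupp.induction with
  | zero => simp [nr]
  | single_add l a c hl ha ih =>
    rw [map_add, lin_single]
    have hsup : (Finsupp.single l a + c).support = insert l c.support := by
      rw [Finsupp.support_add_eq, Finsupp.support_single l ha]
      · rfl
      · rw [Finsupp.support_single l ha]
        simpa using hl
    have h1 : nr (Finsupp.single l a + c) = |a| + nr c := by
      unfold nr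
      rw [Finsupp.sum_add_index_of_disjoint, Finsupp.sum_single_index (by simp)]
      rw [Finsupp.support_single l ha]
      simpa using hl
    have h2 := ih (fun l' hl' => h l' (by rw [hsup]; exact Finset.mem_insert_of_mem hl'))
    have h3 := h l (by rw [hsup]; exact Finset.mem_insert_self _ _)
    calc nr (a • T l + lin T c) ≤ nr (a • T l) + nr (lin T c) := nr_add _ _
      _ ≤ |a| * C + nr c * C := by
          rw [nr_smul]
          exact add_le_add (mul_le_mul_of_nonneg_left h3 (abs_nonneg _)) h2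
      _ = nr (Finsupp.single l a + c) * C := by rw [h1]; ring

/-! ### Iterated subdivision -/

theorem pair_lin_of_natural (Γ : Type*) {B : Type*} [Group Γ] [MulAction Γ B]
    (S : List B → L B)
    (h0 : S [] = Finsupp.single [] 1) (h1 : ∀ b, S [b] = Finsupp.single [b] 1)
    (hd : ∀ l, d (S l) = lin S (dl l))
    (heq : ∀ (g : Γ) (l : List B),
      S (l.map (fun b => g • b)) = (S l).mapDomain (List.map (fun b => g • b)))
    (β : List B → ℝ) (hβ : Inv Γ β) (hc : cob β = 0) (w : L B) (hw : Cyc Γ w) :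
    Cyc Γ (lin S w) ∧ pair β (lin S w) = pair β w := by
  have hinv : ∀ α : List B → ℝ, Inv Γ α → Inv Γ (dual S α) := by
    intro α hα g l
    unfold dual
    rw [heq, pair_eq_sum, pair_eq_sum, Finsupp.sum_mapDomain_index_inj]
    · apply Finsupp.sum_congr
      intro l' _
      rw [hα]
    · exact List.map_injective_iff.mpr (MulAction.injective g)
  have hcob : ∀ α : List B → ℝ, cob (dual S α) = dual S (cob α) := by
    intro α
    funext l
    change pair (dual S α) (dl l) = pair (cob α) (S l)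
    rw [pair_dual, ← hd, pair_d]
  refine ⟨fun α hα => ?_, ?_⟩
  · rw [← pair_dual, ← hcob]
    exact hw _ (hinv α hα)
  · rw [← pair_dual]
    exact natural Γ S h0 h1 hd heq β hβ hc w hw


theorem tv_nonneg {E : Type*} [NormedAddCommGroup E] (l : List E) : 0 ≤ tv l := by
  induction l with
  | nil => exact le_rfl
  | cons a l ih =>
    cases l with
    | nil => exact le_rfl
    | cons b l => exact add_nonneg (norm_nonneg _) ih

variable {E : Type*} [NormedAddCommGroup E] [NormedSpace ℝ E]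

/-- Midpoints in a convex domain. -/
noncomputable def mid (D : Geo E) (x y : D.X) : D.X :=
  ⟨(2 : ℝ)⁻¹ • ((x : E) + (y : E)), by
    have h := D.convex x.2 y.2 (by norm_num : (0 : ℝ) ≤ 2⁻¹) (by norm_num : (0 : ℝ) ≤ 2⁻¹)
      (by norm_num)
    rwa [← smul_add] at h⟩

theorem mid_coe (D : Geo E) (x y : D.X) :
    ((mid D x y : D.X) : E) = (2 : ℝ)⁻¹ • ((x : E) + (y : E)) := rfl

theorem mid_self (D : Geo E) (x : D.X) : mid D x x = x := by
  apply Subtype.ext
  rw [mid_coe, ← two_smul ℝ (x : E), smul_smul]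
  norm_num

theorem aff_eq' (g : E ≃ᵃ[ℝ] E) (x : E) : g x = g.linear x + g 0 := by
  have h := g.map_vadd 0 x
  simpa using h

theorem smul_mid (D : Geo E) (g : D.Γ) (x y : D.X) : g • mid D x y = mid D (g • x) (g • y) := by
  apply Subtype.ext
  rw [smul_coe, mid_coe, mid_coe, smul_coe, smul_coe, aff_eq' g.1, aff_eq' g.1 (x : E),
    aff_eq' g.1 (y : E), map_smul, map_add]
  have h : g.1 0 = (2 : ℝ)⁻¹ • (g.1 0 + g.1 0) := by
    rw [← two_smul ℝ (g.1 0), smul_smul]
    norm_num
  rw [smul_add, smul_add, smul_add, smul_add]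
  nth_rewrite 1 [h]
  rw [smul_add]
  abel

/-- Cochains that are small of order `n + 1` on small simplices vanish on `n`-cycles. -/
theorem pair_eq_zero_of_small (D : Geo E) (n : ℕ) (F : List D.X → ℝ) (hF : Inv D.Γ F)
    (hc : cob F = 0) (K : Set E) (hKc : Convex ℝ K) (C : ℝ)
    (hC : ∀ l : List D.X, l.length = n + 1 → (∀ x ∈ l, (x : E) ∈ K) →
      |F l| ≤ C * (tv (l.map (fun x : D.X => (x : E)))) ^ (n + 1))
    (w : L D.X) (hw : Cyc D.Γ w) (hlen : ∀ l ∈ w.support, l.length = n + 1)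
    (hwK : ∀ l ∈ w.support, ∀ x ∈ l, (x : E) ∈ K) : pair F w = 0 := by
  classical
  obtain ⟨S, h0, h1, hd, heq, hcount, hsupp⟩ := exists_subdivision (mid D) (mid_self D)
    (fun x : D.X => (x : E)) (mid_coe D)
  have heq' : ∀ (g : D.Γ) (l : List D.X),
      S (l.map (fun b => g • b)) = (S l).mapDomain (List.map (fun b => g • b)) := by
    intro g l
    exact heq (fun b => g • b) (fun x y => smul_mid D g x y) l
  obtain ⟨V, hV⟩ : ∃ V : ℝ, ∀ l ∈ w.support, tv (l.map (fun x : D.X => (x : E))) ≤ V := by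
    refine ⟨∑ l ∈ w.support, tv (l.map (fun x : D.X => (x : E))), fun l hl => ?_⟩
    exact Finset.single_le_sum (f := fun l : List D.X => tv (l.map (fun x : D.X => (x : E))))
      (fun i _ => tv_nonneg _) hl
  have key : ∀ k : ℕ, ∃ w' : L D.X, Cyc D.Γ w' ∧ pair F w' = pair F w ∧
      nr w' ≤ nr w * (2 ^ n) ^ k ∧
      ∀ l ∈ w'.support, l.length = n + 1 ∧ (∀ x ∈ l, (x : E) ∈ K) ∧
        tv (l.map (fun x : D.X => (x : E))) ≤ V / 2 ^ k := by
    intro k
    induction k with
    | zero => exact ⟨w, hw, rfl, by simp, fun l hl => ⟨hlen l hl, hwK l hl, by simpa using hV l hl⟩⟩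
    | succ k ih =>
      obtain ⟨w', hw', hpair, hnr, hs⟩ := ih
      obtain ⟨g1, g2⟩ := pair_lin_of_natural D.Γ S h0 h1 hd heq' F hF hc w' hw'
      refine ⟨lin S w', g1, g2.trans hpair, ?_, ?_⟩
      · have h3 : nr (lin S w') ≤ nr w' * 2 ^ n := by
          apply nr_lin_le
          intro l hl
          have := hcount l
          rwa [(hs l hl).1, Nat.add_sub_cancel] at this
        calc nr (lin S w') ≤ nr w' * 2 ^ n := h3
          _ ≤ (nr w * (2 ^ n) ^ k) * 2 ^ n := mul_le_mul_of_nonneg_right hnr (by positivity)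
          _ = nr w * (2 ^ n) ^ (k + 1) := by rw [pow_succ]; ring
      · intro l' hl'
        obtain ⟨l, hl, hl2⟩ := mem_support_lin S w' l' hl'
        obtain ⟨a1, a2, a3⟩ := hs l hl
        obtain ⟨b1, b2, b3⟩ := hsupp l l' hl2
        refine ⟨b1.trans a1, ?_, ?_⟩
        · intro y hy
          obtain ⟨a, ha, b, hb, rfl⟩ := b2 y hy
          rw [mid_coe, smul_add]
          exact hKc (a2 a ha) (a2 b hb) (by norm_num) (by norm_num) (by norm_num)
        · calc tv (l'.map (fun x : D.X => (x : E))) ≤ tv (l.map (fun x : D.X => (x : E))) / 2 := b3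
            _ ≤ (V / 2 ^ k) / 2 := by linarith
            _ = V / 2 ^ (k + 1) := by rw [pow_succ]; ring
  have hbound : ∀ k : ℕ, |pair F w| ≤ (nr w * (|C| * |V| ^ (n + 1))) * (1 / 2) ^ k := by
    intro k
    obtain ⟨w', _, hpair, hnr, hs⟩ := key k
    have h4 : ∀ l ∈ w'.support, |F l| ≤ |C| * (|V| / 2 ^ k) ^ (n + 1) := by
      intro l hl
      obtain ⟨a1, a2, a3⟩ := hs l hl
      refine (hC l a1 a2).trans ?_
      have h5 : tv (l.map (fun x : D.X => (x : E))) ≤ |V| / 2 ^ k :=
        a3.trans (div_le_div_of_nonneg_right (le_abs_self V) (by positivity))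
      calc C * (tv (l.map (fun x : D.X => (x : E)))) ^ (n + 1)
          ≤ |C| * (tv (l.map (fun x : D.X => (x : E)))) ^ (n + 1) :=
            mul_le_mul_of_nonneg_right (le_abs_self C) (pow_nonneg (tv_nonneg _) _)
        _ ≤ |C| * (|V| / 2 ^ k) ^ (n + 1) :=
            mul_le_mul_of_nonneg_left (pow_le_pow_left₀ (tv_nonneg _) h5 _) (abs_nonneg _)
    have h6 := abs_pair_le F w' _ h4
    rw [hpair] at h6
    have h7 : (w'.sum fun _ a => |a|) ≤ nr w * (2 ^ n) ^ k := hnr
    calc |pair F w| ≤ (w'.sum fun _ a => |a|) * (|C| * (|V| / 2 ^ k) ^ (n + 1)) := h6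
      _ ≤ (nr w * (2 ^ n) ^ k) * (|C| * (|V| / 2 ^ k) ^ (n + 1)) :=
          mul_le_mul_of_nonneg_right h7 (by positivity)
      _ = (nr w * (|C| * |V| ^ (n + 1))) * (1 / 2) ^ k := by
          rw [div_pow, div_pow, one_pow, ← pow_mul, ← pow_mul]
          have : (2 : ℝ) ^ (k * (n + 1)) = 2 ^ (n * k) * 2 ^ k := by
            rw [← pow_add]
            congr 1
            ring
          rw [this]
          field_simp
  have hlim : Filter.Tendsto (fun k : ℕ => (nr w * (|C| * |V| ^ (n + 1))) * (1 / 2 : ℝ) ^ k)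
      Filter.atTop (nhds 0) := by
    have := (tendsto_pow_atTop_nhds_zero_of_lt_one (by norm_num : (0 : ℝ) ≤ 1 / 2)
      (by norm_num)).const_mul (nr w * (|C| * |V| ^ (n + 1)))
    simpa using this
  have h8 : |pair F w| ≤ 0 := ge_of_tendsto' hlim hbound
  exact abs_eq_zero.mp (le_antisymm h8 (abs_nonneg _))

/-! ### The group element of a point -/

theorem exists_kappa (D : Geo E) :
    ∃ κ : D.X → D.Γ, ∀ (g : D.Γ) (x : D.X), κ (g • x) = g * κ x := by
  classical
  have hrep : ∀ x : D.X, ∃ g : D.Γ,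
      g • (Quotient.out (Quotient.mk (MulAction.orbitRel D.Γ D.X) x)) = x := by
    intro x
    have h : (MulAction.orbitRel D.Γ D.X).r
        (Quotient.out (Quotient.mk (MulAction.orbitRel D.Γ D.X) x)) x :=
      Quotient.exact (Quotient.out_eq _)
    obtain ⟨g, hg⟩ := (MulAction.orbitRel D.Γ D.X).symm h
    exact ⟨g, hg⟩
  choose κ hκ using hrep
  refine ⟨κ, fun g x => ?_⟩
  have hq : (Quotient.mk (MulAction.orbitRel D.Γ D.X) (g • x)) =
      Quotient.mk (MulAction.orbitRel D.Γ D.X) x :=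
    Quotient.sound ⟨g, rfl⟩
  have h1 := hκ (g • x)
  rw [hq] at h1
  set y := Quotient.out (Quotient.mk (MulAction.orbitRel D.Γ D.X) x) with hy
  have h2 : g • (κ x • y) = g • x := by rw [hκ x]
  have h3 : ((g * κ x)⁻¹ * κ (g • x)) • y = y := by
    rw [mul_smul, h1, ← h2, ← mul_smul g, inv_smul_smul]
  have h4 := D.free ((g * κ x)⁻¹ * κ (g • x) : D.Γ).1 ((g * κ x)⁻¹ * κ (g • x) : D.Γ).2 y.1 y.2
    (by
      have := congrArg Subtype.val h3
      exact this)
  have h5 : ((g * κ x)⁻¹ * κ (g • x) : D.Γ) = 1 := Subtype.ext h4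
  rw [inv_mul_eq_one] at h5
  exact h5.symm

/-! ### The core -/

theorem core [FiniteDimensional ℝ E] (D : Geo E) (hpos : 0 < Module.finrank ℝ E) (k : ℕ)
    (hk : 0 < k) (T : Fin k → Alg E)
    (hcomm : ∀ i i', Commute (T i) (T i')) (hT : ∀ i v, (T i v).2 = 0)
    (j : (Fin k → ℤ) → D.Γ) (hj : ∀ a b, j (a + b) = j a * j b) (hinj : Function.Injective j)
    (N : Subgroup D.Γ) [N.Normal] (hN : ∀ g, g ∈ N ↔ ∃ m, j m = g)
    (hexp : ∀ m, hat (j m).1 = NormedSpace.exp (∑ i, (m i : ℝ) • T i))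
    (hconj : ∀ (g : D.Γ) (i : Fin k), hat g.1 * T i * hat (g⁻¹ : D.Γ).1 ∈
      Submodule.span ℝ (Set.range T))
    (hU : ∀ (s : Fin k → ℝ), ∀ x ∈ D.X, act (NormedSpace.exp (∑ i, s i • T i)) x ∈ D.X) :
    Vanish D := by
  classical
  intro β hb hβ hc w hw hlen
  obtain ⟨κ, hκ⟩ := exists_kappa D
  obtain ⟨y₀, hy₀⟩ := D.nonempty
  -- pull back to the group
  set βΓ : List D.Γ → ℝ := fun l => β (l.map (fun g => g • (⟨y₀, hy₀⟩ : D.X))) with hβΓ
  have hβΓ' : βΓ = dual (push (fun g : D.Γ => Finsupp.single (g • (⟨y₀, hy₀⟩ : D.X)) (1 : ℝ)))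
      β := by
    funext l
    rw [dual_push_single (fun g : D.Γ => g • (⟨y₀, hy₀⟩ : D.X))]
  have heqo : ∀ (g : D.Γ) (a : D.Γ), (fun g : D.Γ => g • (⟨y₀, hy₀⟩ : D.X)) (g • a) =
      g • (fun g : D.Γ => g • (⟨y₀, hy₀⟩ : D.X)) a := by
    intro g a
    simp only [smul_eq_mul, mul_smul]
  have hΓb : Bdd βΓ := by
    obtain ⟨C, hC⟩ := hb
    exact ⟨C, fun l => hC _⟩
  have hΓi : Inv D.Γ βΓ := by
    rw [hβΓ']
    exact inv_push D.Γ _ (equiv_single D.Γ _ heqo) β hβ
  have hΓc : cob βΓ = 0 := by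
    rw [hβΓ', cob_push _ (normalised_single _), hc]
    funext l
    simp [dual, pair]
  have hκe : Equiv' D.Γ (fun x : D.X => Finsupp.single (κ x) (1 : ℝ)) :=
    equiv_single D.Γ κ (fun g a => by rw [hκ, smul_eq_mul])
  have hwΓ : Cyc D.Γ (lin (push (fun x : D.X => Finsupp.single (κ x) (1 : ℝ))) w) :=
    cyc_push D.Γ _ (normalised_single κ) hκe w hw
  have e1 : pair β w = pair βΓ (lin (push (fun x : D.X => Finsupp.single (κ x) (1 : ℝ))) w) := by
    have h1 := push_homotopic D.Γ (fun x : D.X => Finsupp.single (id x) (1 : ℝ))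
      (fun x : D.X => Finsupp.single (κ x • (⟨y₀, hy₀⟩ : D.X)) (1 : ℝ)) (normalised_single _)
      (normalised_single (fun x : D.X => κ x • (⟨y₀, hy₀⟩ : D.X)))
      (equiv_single D.Γ _ (fun _ _ => rfl))
      (equiv_single D.Γ (fun x : D.X => κ x • (⟨y₀, hy₀⟩ : D.X))
        (fun g a => by simp only [hκ, mul_smul])) β hβ hc w hw
    have h2 : dual (push (fun x : D.X => Finsupp.single (id x) (1 : ℝ))) β = β := by
      funext l
      rw [dual_push_single id, List.map_id]
    rw [h2] at h1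
    rw [h1, ← pair_dual]
    congr 2
    funext l
    rw [dual_push_single (fun x : D.X => κ x • (⟨y₀, hy₀⟩ : D.X)), dual_push_single κ, hβΓ]
    simp only [List.map_map]
    rfl
  -- descend to the quotient
  obtain ⟨β₁, hb₁, hi₁, hc₁, he₁⟩ := mean_descend k j hj N hN βΓ hΓb hΓi hΓc
  -- alternate
  obtain ⟨β₂, hb₂, hi₂, hc₂, halt, he₂⟩ := exists_alt D.Γ (Module.finrank ℝ E) β₁ hb₁ hi₁ hc₁
  -- the compact set
  set V : Set E := ⋃ l ∈ w.support, {x | x ∈ l.map (fun x : D.X => (x : E))} with hV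
  have hVfin : V.Finite :=
    Set.Finite.biUnion w.support.finite_toSet (fun l _ => List.finite_toSet _)
  have hVX : V ⊆ D.X := by
    intro x hx
    rw [hV, Set.mem_iUnion₂] at hx
    obtain ⟨l, _, hx⟩ := hx
    simp only [Set.mem_ofPred_eq, List.mem_map] at hx
    obtain ⟨a, _, rfl⟩ := hx
    exact a.2
  have hKcomp : IsCompact (convexHull ℝ V) := hVfin.isCompact_convexHull ℝ
  have hKX : convexHull ℝ V ⊆ D.X := convexHull_min hVX D.convex
  obtain ⟨ν, hνn, hνe, S, ν', O, hO, hKO, hsm, hval, hrank⟩ := exists_nu D k hk T hcomm hT j hj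
    hinj N hN hexp hconj hU (convexHull ℝ V) hKcomp hKX
  have e2 : pair β w = pair (dual (push ν) β₂) w := by
    rw [e1, ← he₁ _ hwΓ, ← pair_dual]
    have h3 : dual (push (fun x : D.X => Finsupp.single (κ x) (1 : ℝ)))
        (dual (push (fun g : D.Γ => Finsupp.single (g : D.Γ ⧸ N) (1 : ℝ))) β₁) =
        dual (push (fun x : D.X => Finsupp.single ((κ x : D.Γ ⧸ N)) (1 : ℝ))) β₁ := by
      funext l
      rw [dual_push_single κ, dual_push_single (fun g : D.Γ => (g : D.Γ ⧸ N)),
        dual_push_single (fun x : D.X => (κ x : D.Γ ⧸ N)), List.map_map]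
      rfl
    rw [h3]
    have h4 := push_homotopic D.Γ
      (fun x : D.X => Finsupp.single ((κ x : D.Γ ⧸ N)) (1 : ℝ)) ν
      (normalised_single (fun x : D.X => (κ x : D.Γ ⧸ N))) hνn
      (equiv_single D.Γ (fun x : D.X => (κ x : D.Γ ⧸ N)) (fun g a => by rw [hκ]; rfl)) hνe
      β₁ hi₁ hc₁ w hw
    rw [h4, pair_dual, ← he₂ _ (cyc_push D.Γ ν hνn hνe w hw), ← pair_dual]
  rw [e2]
  obtain ⟨Φ, hΦ⟩ := exists_altMap S (Module.finrank ℝ E + 1) β₂ halt D.X
  obtain ⟨C, hC⟩ := rank_est (E := E) (Module.finrank ℝ E) rfl hpos (S := S) (convexHull ℝ V) O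
    hKcomp (convex_convexHull ℝ V) hO hKO (fun x q => ν' x q)
    (contDiffOn_pi.mpr (fun q => hsm q q.2))
    (by
      intro x hx
      obtain ⟨v, hv, hv2⟩ := hrank x hx
      refine ⟨v, hv, ?_⟩
      have hd : ∀ q : S, DifferentiableAt ℝ (fun y => ν' y q) x := fun q =>
        ((hsm q q.2).differentiableOn (by norm_num)).differentiableAt (hO.mem_nhds (hKO hx))
      rw [fderiv_pi hd]
      funext q
      exact hv2 q q.2) Φ
  refine pair_eq_zero_of_small D (Module.finrank ℝ E) _ (inv_push D.Γ ν hνe β₂ hi₂) ?_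
    (convexHull ℝ V) (convex_convexHull ℝ V) C ?_ w hw hlen ?_
  · rw [cob_push ν hνn, hc₂]
    funext l
    simp [dual, pair]
  · intro l hl hlK
    obtain ⟨x, rfl⟩ : ∃ x : Fin (Module.finrank ℝ E + 1) → D.X, l = List.ofFn x := by
      refine ⟨fun i => l.get (i.cast hl.symm), ?_⟩
      apply List.ext_get
      · simp [hl]
      · intro i h1 h2
        rw [List.get_ofFn]
        rfl
    have hxK : ∀ i, ((x i : D.X) : E) ∈ convexHull ℝ V := fun i =>
      hlK (x i) (List.mem_ofFn.mpr ⟨i, rfl⟩)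
    rw [hΦ ν x (fun i q hq => by
      by_contra hqS
      rw [Finsupp.mem_support_iff] at hq
      exact hq ((hval (x i) (hxK i) q).2 hqS))]
    have h5 := hC (fun i => (x i : E)) hxK
    rw [List.map_ofFn]
    have h6 : (fun i : Fin (Module.finrank ℝ E + 1) => fun q : S => ν (x i) q) =
        fun i => fun q : S => ν' (x i : E) q := by
      funext i q
      exact (hval (x i) (hxK i) q).1 q.2
    rw [h6]
    exact h5
  · intro l hl x hx
    apply subset_convexHull
    rw [hV, Set.mem_iUnion₂]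
    exact ⟨l, hl, List.mem_map.mpr ⟨x, hx, rfl⟩⟩

end Pool.SV
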