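import Pool.Agent.Helper84.SV.GeoU
import Pool.Agent.Helper84.SV.Core

open Set Finset

set_option linter.unusedSectionVars false

namespace Pool.SV

variable {E : Type*} [NormedAddCommGroup E] [NormedSpace ℝ E] [FiniteDimensional ℝ E]

/-- A group acting freely by affine maps on a convex set is torsion free. -/
theorem eq_one_of_pow (D : Geo E) (g : E ≃ᵃ[ℝ] E) (hg : g ∈ D.Γ) (m : ℕ) (hm : 0 < m)
    (h : g ^ m = 1) : g = 1 := by
  obtain ⟨x, hx⟩ := D.nonempty
  have hpow : ∀ i : ℕ, (g ^ i) x ∈ D.X := fun i => D.inv _ (D.Γ.pow_mem hg i) x hx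
  have hm' : (0 : ℝ) < (m : ℝ) := by exact_mod_cast hm
  set y : E := ∑ i ∈ Finset.range m, ((m : ℝ)⁻¹) • (g ^ i) x with hy
  have hyX : y ∈ D.X := by
    refine D.convex.sum_mem (fun i _ => by positivity) ?_ (fun i _ => hpow i)
    rw [Finset.sum_const, Finset.card_range, nsmul_eq_mul, mul_inv_cancel₀ hm'.ne']
  refine D.free g hg y hyX ?_
  have h1 : g y = ∑ i ∈ Finset.range m, ((m : ℝ)⁻¹) • g ((g ^ i) x) := by
    rw [aff_eq' g y, hy, map_sum]
    have h0 : g 0 = ∑ i ∈ Finset.range m, ((m : ℝ)⁻¹) • g 0 := by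
      rw [Finset.sum_const, Finset.card_range, ← Nat.cast_smul_eq_nsmul ℝ, smul_smul,
        mul_inv_cancel₀ hm'.ne', one_smul]
    rw [h0, ← Finset.sum_add_distrib]
    refine Finset.sum_congr rfl fun i _ => ?_
    rw [map_smul, aff_eq' g ((g ^ i) x), smul_add]
  rw [h1]
  have h2 : ∀ i : ℕ, g ((g ^ i) x) = (g ^ (i + 1)) x := fun i => by rw [pow_succ']; rfl
  simp only [h2]
  have h3 := Finset.sum_range_succ' (fun i => ((m : ℝ)⁻¹) • (g ^ i) x) m
  rw [Finset.sum_range_succ, h, pow_zero] at h3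
  rw [hy]
  exact (add_right_cancel h3).symm

theorem eq_one_of_zpow (D : Geo E) (g : E ≃ᵃ[ℝ] E) (hg : g ∈ D.Γ) (m : ℤ) (hm : m ≠ 0)
    (h : g ^ m = 1) : g = 1 := by
  have h1 : g ^ m.natAbs = 1 := by
    rcases Int.natAbs_eq m with h2 | h2
    · rw [h2, zpow_natCast] at h
      exact h
    · rw [h2, zpow_neg, zpow_natCast, inv_eq_one] at h
      exact h
  exact eq_one_of_pow D g hg m.natAbs (Int.natAbs_pos.mpr hm) h1

theorem zpow_injective (D : Geo E) (g : E ≃ᵃ[ℝ] E) (hg : g ∈ D.Γ) (hne : g ≠ 1) :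
    Function.Injective (fun m : ℤ => g ^ m) := by
  intro a b hab
  by_contra hne'
  apply hne
  apply eq_one_of_zpow D g hg (a - b) (sub_ne_zero.mpr hne')
  have hab' : g ^ a = g ^ b := hab
  rw [zpow_sub, hab', mul_inv_cancel]

/-- Height of the elements of the algebra generated by an affine map. -/
theorem height_adjoin (g : E ≃ᵃ[ℝ] E) (y : Alg E) (hy : y ∈ Algebra.adjoin ℝ {hat g}) :
    ∃ c : ℝ, ∀ v, (y v).2 = c * v.2 := by
  induction hy using Algebra.adjoin_induction with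
  | mem x hx =>
    rw [Set.mem_singleton_iff] at hx
    refine ⟨1, fun v => ?_⟩
    rw [hx, isAff_hat, one_mul]
  | algebraMap r =>
    refine ⟨r, fun v => ?_⟩
    rw [Algebra.algebraMap_eq_smul_one]
    rfl
  | add x y _ _ hx hy =>
    obtain ⟨a, ha⟩ := hx
    obtain ⟨b, hb⟩ := hy
    refine ⟨a + b, fun v => ?_⟩
    rw [add_mul, ← ha, ← hb]
    rfl
  | mul x y _ _ hx hy =>
    obtain ⟨a, ha⟩ := hx
    obtain ⟨b, hb⟩ := hy
    refine ⟨a * b, fun v => ?_⟩
    rw [mul_assoc, ← hb, ← ha]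
    rfl

theorem exp_height (T : Alg E) (c : ℝ) (hT : ∀ v, (T v).2 = c * v.2) (v : E × ℝ) :
    (NormedSpace.exp T v).2 = Real.exp c * v.2 := by
  -- `T - c` is a generator of an affine flow
  have h1 : IsGen (T - c • (1 : Alg E)) := by
    intro v
    change (T v).2 - c * v.2 = 0
    rw [hT, sub_self]
  have h2 := isAff_exp h1 v
  have h3 : NormedSpace.exp T = Real.exp c • NormedSpace.exp (T - c • (1 : Alg E)) := by
    have h4 : T = c • (1 : Alg E) + (T - c • (1 : Alg E)) := by abel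
    have h5 : Commute (c • (1 : Alg E)) (T - c • (1 : Alg E)) :=
      (Commute.one_left _).smul_left c
    nth_rewrite 1 [h4]
    rw [NormedSpace.exp_add_of_commute h5]
    have h6 : NormedSpace.exp (c • (1 : Alg E)) = Real.exp c • (1 : Alg E) := by
      rw [← Algebra.algebraMap_eq_smul_one, ← Algebra.algebraMap_eq_smul_one,
        Real.exp_eq_exp_ℝ]
      exact (NormedSpace.algebraMap_exp_comm (𝕂 := ℝ) (𝔸 := Alg E) c).symm
    rw [h6, smul_mul_assoc, one_mul]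
  rw [h3]
  change Real.exp c * (NormedSpace.exp (T - c • (1 : Alg E)) v).2 = _
  rw [h2]

theorem gen_of_exp (g h : E ≃ᵃ[ℝ] E) (y : Alg E) (hy : y ∈ Algebra.adjoin ℝ {hat g})
    (he : NormedSpace.exp y = hat h) (v : E × ℝ) : (y v).2 = 0 := by
  obtain ⟨c, hc⟩ := height_adjoin g y hy
  have h1 := exp_height y c hc (0, 1)
  rw [he, isAff_hat] at h1
  have h2 : Real.exp c = 1 := by simpa using h1.symm
  have h3 : c = 0 := Real.exp_eq_one_iff c |>.mp h2
  rw [hc, h3, zero_mul]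

theorem exp_int_smul (g : E ≃ᵃ[ℝ] E) (y : Alg E) (he : NormedSpace.exp y = hat g) (m : ℤ) :
    NormedSpace.exp ((m : ℝ) • y) = hat (g ^ m) := by
  have hstep : ∀ a b : ℝ, NormedSpace.exp ((a + b) • y) =
      NormedSpace.exp (a • y) * NormedSpace.exp (b • y) := by
    intro a b
    rw [add_smul, NormedSpace.exp_add_of_commute]
    exact ((Commute.refl y).smul_left a).smul_right b
  have hneg : NormedSpace.exp ((-1 : ℝ) • y) = hat g⁻¹ := by
    have h1 := hstep 1 (-1)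
    rw [add_neg_cancel, zero_smul, NormedSpace.exp_zero, one_smul, he] at h1
    have h2 : hat g⁻¹ * (hat g * NormedSpace.exp ((-1 : ℝ) • y)) = hat g⁻¹ := by
      rw [← h1, mul_one]
    rw [← mul_assoc, hat_inv_mul, one_mul] at h2
    exact h2
  induction m using Int.induction_on with
  | zero => simp [hat_one]
  | succ n ih =>
    push_cast at ih ⊢
    rw [hstep, ih, one_smul, he, ← hat_mul, zpow_add_one]
  | pred n ih =>
    push_cast at ih ⊢
    rw [sub_eq_add_neg, hstep, ih, hneg, ← hat_mul, zpow_sub_one]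

theorem continuous_aff (g : E ≃ᵃ[ℝ] E) : Continuous g := by
  have h : (g : E → E) = act (hat g) := by
    funext x
    rw [act_hat]
  rw [h]
  exact continuous_act _

/-- The subgroup of finite index. -/
def geoSub (D : Geo E) (Γ₁ : Subgroup D.Γ) : Geo E where
  Γ := Γ₁.map D.Γ.subtype
  X := D.X
  isOpen := D.isOpen
  convex := D.convex
  nonempty := D.nonempty
  inv := fun g hg => D.inv g (Subgroup.map_subtype_le Γ₁ hg)
  free := fun g hg => D.free g (Subgroup.map_subtype_le Γ₁ hg)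
  pd := fun K hK hc => (D.pd K hK hc).subset
    (fun _ hg => ⟨Subgroup.map_subtype_le Γ₁ hg.1, hg.2⟩)

theorem relIndex_geoSub (D : Geo E) (Γ₁ : Subgroup D.Γ) :
    (geoSub D Γ₁).Γ.relIndex D.Γ = Γ₁.index := by
  change ((Γ₁.map D.Γ.subtype).comap D.Γ.subtype).index = Γ₁.index
  rw [Subgroup.comap_map_eq_self_of_injective D.Γ.subtype_injective]

theorem cocompact_geoSub (D : Geo E) (Γ₁ : Subgroup D.Γ) [Γ₁.FiniteIndex]
    (hcc : ∃ K ⊆ D.X, IsCompact K ∧ ∀ x ∈ D.X, ∃ g ∈ D.Γ, g x ∈ K) :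
    ∃ K ⊆ (geoSub D Γ₁).X, IsCompact K ∧ ∀ x ∈ (geoSub D Γ₁).X, ∃ g ∈ (geoSub D Γ₁).Γ, g x ∈ K := by
  obtain ⟨K, hKX, hK, hc⟩ := hcc
  refine ⟨⋃ q : D.Γ ⧸ Γ₁, ((q.out⁻¹ : D.Γ).1 : E → E) '' K, ?_, ?_, ?_⟩
  · intro x hx
    rw [Set.mem_iUnion] at hx
    obtain ⟨q, y, hy, rfl⟩ := hx
    exact D.inv _ (q.out⁻¹ : D.Γ).2 y (hKX hy)
  · exact isCompact_iUnion fun q => hK.image (continuous_aff _)
  · intro x hx
    obtain ⟨g, hg, hgx⟩ := hc x hx
    set q : D.Γ ⧸ Γ₁ := ((⟨g, hg⟩ : D.Γ) : D.Γ ⧸ Γ₁) with hq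
    have h1 : q.out⁻¹ * (⟨g, hg⟩ : D.Γ) ∈ Γ₁ := by
      rw [← QuotientGroup.eq, QuotientGroup.out_eq']
    refine ⟨(q.out⁻¹ * (⟨g, hg⟩ : D.Γ) : D.Γ).1, ⟨_, h1, rfl⟩, ?_⟩
    rw [Set.mem_iUnion]
    exact ⟨q, g x, hgx, rfl⟩

/-- The case without unipotent elements. -/
theorem vanish_of_no_unipotent (D : Geo E) (hpos : 0 < Module.finrank ℝ E) (A : Subgroup D.Γ)
    [A.Normal] (hab : ∀ a ∈ A, ∀ b ∈ A, a * b = b * a) (hne : A ≠ ⊥)
    (hnu : ∀ a ∈ A, IsNilpotent (hat a.1 - 1) → a = 1)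
    (hcc : ∃ K ⊆ D.X, IsCompact K ∧ ∀ x ∈ D.X, ∃ g ∈ D.Γ, g x ∈ K) : Vanish D := by
  obtain ⟨a, haA, ha1⟩ : ∃ a : D.Γ, a ∈ A ∧ a ≠ 1 := by
    obtain ⟨a, ha⟩ := Subgroup.ne_bot_iff_exists_ne_one.mp hne
    exact ⟨a.1, a.2, fun h => ha (Subtype.ext h)⟩
  have hfi : (Subgroup.centralizer ({a} : Set D.Γ)).FiniteIndex :=
    centralizer_finiteIndex D.Γ A hab hnu a haA
  set Γ₁ : Subgroup D.Γ := Subgroup.centralizer ({a} : Set D.Γ) with hΓ₁
  have hunit : IsUnit (hat a.1) :=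
    ⟨⟨hat a.1, hat a.1⁻¹, hat_mul_inv a.1, hat_inv_mul a.1⟩, rfl⟩
  obtain ⟨y, hy, hexp⟩ := exists_log_sq (hat a.1) hunit
  rw [← hat_mul] at hexp
  have hyT : ∀ v, (y v).2 = 0 := gen_of_exp a.1 (a.1 * a.1) y hy hexp
  have ha1' : a.1 ≠ 1 := fun h => ha1 (Subtype.ext h)
  have hb1 : a.1 * a.1 ≠ 1 := by
    intro h
    exact ha1' (eq_one_of_pow D a.1 a.2 2 (by norm_num) (by rw [pow_two]; exact h))
  have hcomm : ∀ g ∈ (geoSub D Γ₁).Γ, Commute (hat g) y := by
    rintro g ⟨g', hg', rfl⟩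
    have h1 : a * g' = g' * a := by
      have hg2 : g' ∈ Subgroup.centralizer ({a} : Set D.Γ) := hg'
      rw [Subgroup.mem_centralizer_iff] at hg2
      exact hg2 a rfl
    have h2 : Commute (hat g'.1) (hat a.1) := by
      change hat g'.1 * hat a.1 = hat a.1 * hat g'.1
      rw [← hat_mul, ← hat_mul]
      exact congrArg (fun z : D.Γ => hat z.1) h1.symm
    exact Algebra.commute_of_mem_adjoin_singleton_of_commute hy h2
  have haΓ : a.1 * a.1 ∈ (geoSub D Γ₁).Γ := by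
    refine ⟨a * a, ?_, rfl⟩
    have : a ∈ Γ₁ := by
      rw [hΓ₁, Subgroup.mem_centralizer_iff]
      intro h hh
      rw [Set.mem_singleton_iff] at hh
      rw [hh]
    exact Γ₁.mul_mem this this
  set b : (geoSub D Γ₁).Γ := ⟨a.1 * a.1, haΓ⟩ with hb
  have hflow := flow_preserves (geoSub D Γ₁).Γ (geoSub D Γ₁).X (geoSub D Γ₁).isOpen
    (geoSub D Γ₁).inv (cocompact_geoSub D Γ₁ hcc) y hyT hcomm
  have hcentral : ∀ g : (geoSub D Γ₁).Γ, g * b = b * g := by
    rintro ⟨_, g', hg', rfl⟩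
    have h1 : a * g' = g' * a := by
      have hg2 : g' ∈ Subgroup.centralizer ({a} : Set D.Γ) := hg'
      rw [Subgroup.mem_centralizer_iff] at hg2
      exact hg2 a rfl
    have h2 : g' * (a * a) = (a * a) * g' := by
      rw [← mul_assoc, ← h1, mul_assoc, ← h1, ← mul_assoc]
    apply Subtype.ext
    exact congrArg (fun z : D.Γ => z.1) h2
  have hnorm : (Subgroup.zpowers b).Normal := by
    constructor
    intro n hn g
    obtain ⟨m, rfl⟩ := hn
    refine ⟨m, ?_⟩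
    have hc : Commute g (b ^ m) := (show Commute g b from hcentral g).zpow_right m
    change b ^ m = g * b ^ m * g⁻¹
    rw [hc.eq, mul_inv_cancel_right]
  have hV : Vanish (geoSub D Γ₁) := by
    refine core (geoSub D Γ₁) hpos 1 one_pos (fun _ => y) (fun _ _ => Commute.refl y)
      (fun _ => hyT) (fun m => b ^ (m 0)) (fun m m' => by rw [Pi.add_apply, zpow_add]) ?_
      (Subgroup.zpowers b) ?_ ?_ ?_ ?_
    · intro m m' hmm
      funext i
      have h0 : i = 0 := Subsingleton.elim _ _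
      subst h0
      apply zpow_injective D (a.1 * a.1) (D.Γ.mul_mem a.2 a.2) hb1
      have := congrArg Subtype.val hmm
      simpa using this
    · intro g
      constructor
      · rintro ⟨m, rfl⟩
        exact ⟨fun _ => m, rfl⟩
      · rintro ⟨m, rfl⟩
        exact ⟨m 0, rfl⟩
    · intro m
      rw [Finset.univ_unique, Finset.sum_singleton]
      have := exp_int_smul (a.1 * a.1) y hexp (m 0)
      simpa using this.symm
    · intro g _
      have h1 := hcomm g.1 g.2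
      have h2 : hat g.1 * y * hat (g⁻¹ : (geoSub D Γ₁).Γ).1 = y := by
        rw [h1.eq, mul_assoc]
        have h3 : hat g.1 * hat (g⁻¹ : (geoSub D Γ₁).Γ).1 = 1 := hat_mul_inv g.1
        rw [h3, mul_one]
      rw [h2]
      exact Submodule.subset_span ⟨0, rfl⟩
    · intro s x hx
      rw [Finset.univ_unique, Finset.sum_singleton]
      exact hflow _ x hx
  refine vanish_transfer D (geoSub D Γ₁) (Subgroup.map_subtype_le Γ₁) ?_ subset_rfl hV
  rw [relIndex_geoSub]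
  exact hfi.index_ne_zero

end Pool.SV
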