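import Mathlib

/-!
Project SV: vanishing of the simplicial volume for closed affine manifolds with convex universal
cover whose fundamental group has a nontrivial solvable normal subgroup.
-/

open Set Finset

namespace Pool.SV

/-! ### Singular chains -/

/-- Singular `q`-simplices of `M`. -/
abbrev Sing (M : Type*) [TopologicalSpace M] (q : ℕ) := C(stdSimplex ℝ (Fin (q + 1)), M)

/-- The `i`-th face of the standard `(q+1)`-simplex. -/
noncomputable def face (q : ℕ) (i : Fin (q + 2)) :
    C(stdSimplex ℝ (Fin (q + 1)), stdSimplex ℝ (Fin (q + 1 + 1))) :=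
  ⟨stdSimplex.map (Fin.succAbove i), stdSimplex.continuous_map _⟩

/-- Real singular `q`-chains of `M`. -/
abbrev Chain (M : Type*) [TopologicalSpace M] (q : ℕ) := Sing M q →₀ ℝ

/-- The boundary map `C_{q+1}(M; ℝ) → C_q(M; ℝ)`. -/
noncomputable def bd (M : Type*) [TopologicalSpace M] (q : ℕ) :
    Chain M (q + 1) →ₗ[ℝ] Chain M q :=
  Finsupp.linearCombination ℝ (fun σ : Sing M (q + 1) =>
    ∑ i : Fin (q + 2), ((-1 : ℝ) ^ (i : ℕ)) • Finsupp.single (σ.comp (face q i)) (1 : ℝ))

/-- The `ℓ¹`-norm of a chain. -/
noncomputable def nrm {M : Type*} [TopologicalSpace M] {q : ℕ} (c : Chain M q) : ℝ :=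
  c.sum (fun _ a => |a|)

/-! ### Tuple chains -/

/-- Chains of (ordered) tuples of points of `B`. -/
abbrev L (B : Type*) := List B →₀ ℝ

/-- Put the vertex `b` in front. -/
noncomputable def cone {B : Type*} (b : B) : L B →ₗ[ℝ] L B :=
  Finsupp.lmapDomain ℝ ℝ (List.cons b)

/-- The (augmented) simplicial boundary of a tuple. -/
noncomputable def dl {B : Type*} : List B → L B
  | [] => 0
  | b :: l => Finsupp.single l 1 - cone b (dl l)

/-- The boundary on tuple chains. -/
noncomputable def d {B : Type*} : L B →ₗ[ℝ] L B := Finsupp.linearCombination ℝ dl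

/-- Evaluation of a cochain on a chain. -/
noncomputable def pair {B : Type*} (β : List B → ℝ) : L B →ₗ[ℝ] ℝ :=
  Finsupp.linearCombination ℝ β

/-- The coboundary of a cochain. -/
noncomputable def cob {B : Type*} (α : List B → ℝ) : List B → ℝ := fun l => pair α (dl l)

/-- The pull back of a cochain under a map from tuples to chains. -/
noncomputable def dual {A B : Type*} (T : List A → L B) (β : List B → ℝ) : List A → ℝ :=
  fun l => pair β (T l)

/-- Invariant cochains. -/
def Inv (Γ : Type*) {B : Type*} [Group Γ] [MulAction Γ B] (α : List B → ℝ) : Prop :=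
  ∀ (g : Γ) (l : List B), α (l.map (fun b => g • b)) = α l

/-- Cycles modulo the action of `Γ`. -/
def Cyc (Γ : Type*) {B : Type*} [Group Γ] [MulAction Γ B] (w : L B) : Prop :=
  ∀ α : List B → ℝ, Inv Γ α → pair (cob α) w = 0

/-- Bounded cochains. -/
def Bdd {B : Type*} (β : List B → ℝ) : Prop := ∃ C : ℝ, ∀ l, |β l| ≤ C

/-- The chain map induced by a map from points to finitely supported measures. -/
noncomputable def push {A B : Type*} (p : A → (B →₀ ℝ)) : List A → L B
  | [] => Finsupp.single [] 1
  | a :: l => (p a).sum (fun b c => c • cone b (push p l))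

/-- `p` has total mass one at each point. -/
def Normalised {A B : Type*} (p : A → (B →₀ ℝ)) : Prop := ∀ a, (p a).sum (fun _ c => c) = 1

/-- `p` is equivariant. -/
def Equiv' (Γ : Type*) {A B : Type*} [Group Γ] [MulAction Γ A] [MulAction Γ B]
    (p : A → (B →₀ ℝ)) : Prop :=
  ∀ (g : Γ) (a : A), p (g • a) = (p a).mapDomain (fun b => g • b)

/-! ### Affine maps as linear maps of `E × ℝ` -/

section Affine

variable {E : Type*} [NormedAddCommGroup E] [NormedSpace ℝ E]

/-- The algebra of linear maps of `E × ℝ`. -/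
abbrev Alg (E : Type*) [NormedAddCommGroup E] [NormedSpace ℝ E] := (E × ℝ) →L[ℝ] (E × ℝ)

variable [FiniteDimensional ℝ E]

/-- The linear map of `E × ℝ` attached to an affine map: `(x, r) ↦ (Lx + r g(0), r)`. -/
noncomputable def hat (g : E ≃ᵃ[ℝ] E) : Alg E :=
  LinearMap.toContinuousLinearMap
    { toFun := fun v => (g.linear v.1 + v.2 • g 0, v.2)
      map_add' := by
        intro v w
        ext <;> simp [add_smul]
        abel
      map_smul' := by
        intro c v
        ext <;> simp [mul_smul] }

/-- The affine map attached to a linear map of `E × ℝ` (evaluation at height one). -/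
def act (T : Alg E) (x : E) : E := (T (x, 1)).1

end Affine

/-! ### Linear extension, total variation -/

/-- Linear extension of a map from tuples to chains. -/
noncomputable def lin {A B : Type*} (T : List A → L B) : L A →ₗ[ℝ] L B :=
  Finsupp.linearCombination ℝ T

/-- The length of the polygonal path through a tuple. -/
def tv {E : Type*} [NormedAddCommGroup E] : List E → ℝ
  | [] => 0
  | [_] => 0
  | a :: b :: l => ‖b - a‖ + tv (b :: l)

/-! ### Groups of affine maps acting on a convex domain -/

/-- A group of affine maps acting freely and properly discontinuously on an open convex set. -/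
structure Geo (E : Type*) [NormedAddCommGroup E] [NormedSpace ℝ E] where
  /-- the group -/
  Γ : Subgroup (E ≃ᵃ[ℝ] E)
  /-- the domain -/
  X : Set E
  isOpen : IsOpen X
  convex : Convex ℝ X
  nonempty : X.Nonempty
  inv : ∀ g ∈ Γ, ∀ x ∈ X, g x ∈ X
  free : ∀ g ∈ Γ, ∀ x ∈ X, g x = x → g = 1
  pd : ∀ K : Set E, K ⊆ X → IsCompact K → {g : E ≃ᵃ[ℝ] E | g ∈ Γ ∧ ∃ x ∈ K, g x ∈ K}.Finite

/-- The action of the group on the domain. -/
instance {E : Type*} [NormedAddCommGroup E] [NormedSpace ℝ E] (D : Geo E) :
    MulAction D.Γ D.X where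
  smul g x := ⟨g.1 x.1, D.inv g.1 g.2 x.1 x.2⟩
  one_smul x := rfl
  mul_smul g h x := rfl

theorem smul_coe {E : Type*} [NormedAddCommGroup E] [NormedSpace ℝ E] (D : Geo E)
    (g : D.Γ) (x : D.X) : ((g • x : D.X) : E) = g.1 x.1 := rfl

/-- Bounded invariant cocycles vanish on cycles of the top degree `dim E`. -/
def Vanish {E : Type*} [NormedAddCommGroup E] [NormedSpace ℝ E] (D : Geo E) : Prop :=
  ∀ β : List D.X → ℝ, Bdd β → Inv D.Γ β → cob β = 0 → ∀ w : L D.X, Cyc D.Γ w →
    (∀ l ∈ w.support, l.length = Module.finrank ℝ E + 1) → pair β w = 0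

end Pool.SV
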