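import Pool.Agent.Helper84.SV.GeoU
import Pool.Agent.Helper84.SV.Core

open Set Finset

set_option linter.unusedSectionVars false

namespace Pool.SV

variable {E : Type*} [NormedAddCommGroup E] [NormedSpace ℝ E] [FiniteDimensional ℝ E]

/-- The case of a nontrivial unipotent abelian normal subgroup. -/
theorem vanish_of_unipotent (D : Geo E) (hpos : 0 < Module.finrank ℝ E) (N : Subgroup D.Γ)
    [N.Normal] (hab : ∀ a ∈ N, ∀ b ∈ N, a * b = b * a) (hne : N ≠ ⊥)
    (hu : ∀ a ∈ N, IsNilpotent (hat a.1 - 1)) : Vanish D := by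
  obtain ⟨k, T, j, hk, hcomm, hnil, hT, hj, hinj, hN, hexp, hconj⟩ := exists_hull D N hab hne hu
  have hinv : ∀ m : Fin k → ℤ, ∀ x ∈ D.X,
      act (NormedSpace.exp (gen T (fun i => (m i : ℝ)))) x ∈ D.X := by
    intro m x hx
    have h1 : NormedSpace.exp (gen T (fun i => (m i : ℝ))) = hat (j m).1 := (hexp m).symm
    rw [h1, act_hat]
    exact D.inv _ (j m).2 x hx
  have hpt := exists_spline_point D.X D.convex D.nonempty k T hcomm hnil hT hinv
  have hV : Vanish (geoU D T hcomm hT hinv hconj hpt) := by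
    have hn : @Subgroup.Normal (geoU D T hcomm hT hinv hconj hpt).Γ _ N :=
      (inferInstance : N.Normal)
    exact @core E _ _ _ (geoU D T hcomm hT hinv hconj hpt) hpos k hk T hcomm hT j hj hinj N hn hN
      hexp hconj (fun s x hx => flowCore_flow T D.X hcomm hT s x hx)
  refine vanish_transfer D (geoU D T hcomm hT hinv hconj hpt) le_rfl ?_ (flowCore_subset T D.X) hV
  change D.Γ.relIndex D.Γ ≠ 0
  rw [Subgroup.relIndex_self]
  exact one_ne_zero

end Pool.SV
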