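import Pool.Agent.Helper84.SV.Hat

open Set Finset

namespace Pool.SV

/-- `Γ` has a nontrivial abelian normal subgroup. -/
def HasAbNormal (Γ : Type*) [Group Γ] : Prop :=
  ∃ A : Subgroup Γ, A.Normal ∧ A ≠ ⊥ ∧ ∀ a ∈ A, ∀ b ∈ A, a * b = b * a

/-- The representation modulo the image of the idempotent `e` is discrete. -/
def DiscMod {Γ R : Type*} [Group Γ] [NormedRing R] (φ : Γ →* R) (e : R) : Prop :=
  ∀ C : ℝ, {g : Γ | ‖(1 - e) * φ g * (1 - e)‖ ≤ C ∧ ‖(1 - e) * φ g⁻¹ * (1 - e)‖ ≤ C}.Finite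

variable {E : Type*} [NormedAddCommGroup E] [NormedSpace ℝ E] [FiniteDimensional ℝ E]

/-- The representation on `E × ℝ`. -/
noncomputable def hatHom (Γ : Subgroup (E ≃ᵃ[ℝ] E)) : Γ →* Alg E where
  toFun g := hat g.1
  map_one' := hat_one
  map_mul' g h := hat_mul g.1 h.1

/-- `Γ` preserves a flag of the lineality space of `X`, and acts on each quotient of the flag by
similarities of some norm. -/
def SimFlag (Γ : Subgroup (E ≃ᵃ[ℝ] E)) (X : Set E) : Prop :=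
  ∃ (r : ℕ) (F : ℕ → Submodule ℝ E), F 0 = ⊥ ∧
    (∀ v, v ∈ F r ↔ ∀ x ∈ X, ∀ t : ℝ, x + t • v ∈ X) ∧
    ∀ i < r, F i ≤ F (i + 1) ∧ ∃ p : Seminorm ℝ E, (∀ v ∈ F (i + 1), p v = 0 ↔ v ∈ F i) ∧
      ∀ g ∈ Γ, ∃ c : ℝ, ∀ v ∈ F (i + 1), g.linear v ∈ F (i + 1) ∧ p (g.linear v) = c * p v

end Pool.SV
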