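import Pool.Agent.Helper84.SV.CaseU
import Pool.Agent.Helper84.SV.CaseC

open Set Finset
open scoped commutatorElement

set_option linter.unusedSectionVars false

namespace Pool.SV

/-! ### The last term of the derived series -/

theorem exists_abelian_normal {G : Type*} [Group G] (N : Subgroup G) [N.Normal]
    (hN : N ≠ ⊥) [Group.IsSolvable N] : ∃ A : Subgroup G, A.Normal ∧ A ≤ N ∧ A ≠ ⊥ ∧
      ∀ a ∈ A, ∀ b ∈ A, a * b = b * a := by
  classical
  have hex : ∃ n, derivedSeries N n = ⊥ := Group.IsSolvable.solvable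
  set n := Nat.find hex with hn
  have h0 : n ≠ 0 := by
    intro h
    have h1 : derivedSeries N n = ⊥ := Nat.find_spec hex
    rw [h, derivedSeries_zero] at h1
    apply hN
    rw [Subgroup.eq_bot_iff_forall]
    intro x hx
    have h2 : (⟨x, hx⟩ : N) ∈ (⊤ : Subgroup N) := Subgroup.mem_top _
    rw [h1, Subgroup.mem_bot] at h2
    exact congrArg Subtype.val h2
  obtain ⟨m, hm⟩ := Nat.exists_eq_succ_of_ne_zero h0
  have hlast : derivedSeries N (m + 1) = ⊥ := by
    have h1 : derivedSeries N n = ⊥ := Nat.find_spec hex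
    rw [hm] at h1
    exact h1
  have hne : derivedSeries N m ≠ ⊥ := by
    apply Nat.find_min hex
    omega
  refine ⟨(derivedSeries N m).map N.subtype, ?_, Subgroup.map_subtype_le _, ?_, ?_⟩
  · infer_instance
  · intro h
    apply hne
    rwa [Subgroup.map_eq_bot_iff_of_injective _ N.subtype_injective] at h
  · rintro _ ⟨a, ha, rfl⟩ _ ⟨b, hb, rfl⟩
    rw [derivedSeries_succ] at hlast
    have h1 : ⁅a, b⁆ ∈ (⊥ : Subgroup N) := hlast ▸ Subgroup.commutator_mem_commutator ha hb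
    rw [Subgroup.mem_bot, commutatorElement_eq_one_iff_mul_comm] at h1
    exact congrArg N.subtype h1

variable {E : Type*} [NormedAddCommGroup E] [NormedSpace ℝ E] [FiniteDimensional ℝ E]

/-- The unipotent elements of an abelian normal subgroup. -/
def unip (Γ : Subgroup (E ≃ᵃ[ℝ] E)) (A : Subgroup Γ)
    (hab : ∀ a ∈ A, ∀ b ∈ A, a * b = b * a) : Subgroup Γ where
  carrier := {a | a ∈ A ∧ IsNilpotent (hat a.1 - 1)}
  one_mem' := ⟨A.one_mem, by
    change IsNilpotent (hat (1 : E ≃ᵃ[ℝ] E) - 1)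
    rw [hat_one, sub_self]
    exact IsNilpotent.zero⟩
  mul_mem' := by
    rintro a b ⟨haA, ha⟩ ⟨hbA, hb⟩
    refine ⟨A.mul_mem haA hbA, ?_⟩
    have hcomm : Commute (hat a.1) (hat b.1) := by
      change hat a.1 * hat b.1 = hat b.1 * hat a.1
      rw [← hat_mul, ← hat_mul]
      exact congrArg (fun z : Γ => hat z.1) (hab a haA b hbA)
    have h1 : hat (a * b : Γ).1 - 1 = hat a.1 * (hat b.1 - 1) + (hat a.1 - 1) := by
      have : hat (a * b : Γ).1 = hat a.1 * hat b.1 := hat_mul a.1 b.1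
      rw [this, mul_sub, mul_one]
      abel
    rw [h1]
    have hc1 : Commute (hat a.1) (hat b.1 - 1) := hcomm.sub_right (Commute.one_right _)
    refine Commute.isNilpotent_add ?_ (hc1.isNilpotent_mul_left hb) ha
    have hc2 : Commute (hat a.1) (hat a.1 - 1) := (Commute.refl _).sub_right (Commute.one_right _)
    have hc3 : Commute (hat b.1 - 1) (hat a.1 - 1) :=
      (hc1.symm).sub_right (Commute.one_right _)
    exact hc2.mul_left hc3
  inv_mem' := by
    rintro a ⟨haA, ha⟩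
    refine ⟨A.inv_mem haA, ?_⟩
    have h1 : hat (a⁻¹ : Γ).1 - 1 = -(hat (a⁻¹ : Γ).1 * (hat a.1 - 1)) := by
      have : hat (a⁻¹ : Γ).1 * hat a.1 = 1 := hat_inv_mul a.1
      rw [mul_sub, this, mul_one]
      abel
    rw [h1]
    have hc : Commute (hat (a⁻¹ : Γ).1) (hat a.1 - 1) := by
      refine Commute.sub_right ?_ (Commute.one_right _)
      change hat (a⁻¹ : Γ).1 * hat a.1 = hat a.1 * hat (a⁻¹ : Γ).1
      exact (hat_inv_mul a.1).trans (hat_mul_inv a.1).symm
    exact (hc.isNilpotent_mul_left ha).neg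

theorem unip_normal (Γ : Subgroup (E ≃ᵃ[ℝ] E)) (A : Subgroup Γ) [hA : A.Normal]
    (hab : ∀ a ∈ A, ∀ b ∈ A, a * b = b * a) : (unip Γ A hab).Normal := by
  constructor
  rintro a ⟨haA, ha⟩ g
  refine ⟨hA.conj_mem a haA g, ?_⟩
  have h1 : hat (g * a * g⁻¹ : Γ).1 - 1 = hat g.1 * (hat a.1 - 1) * hat (g⁻¹ : Γ).1 := by
    have h2 : hat (g * a * g⁻¹ : Γ).1 = hat g.1 * hat a.1 * hat (g⁻¹ : Γ).1 := by
      have : (g * a * g⁻¹ : Γ).1 = g.1 * a.1 * (g⁻¹ : Γ).1 := rfl
      rw [this, hat_mul, hat_mul]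
    have h3 : hat g.1 * hat (g⁻¹ : Γ).1 = 1 := hat_mul_inv g.1
    rw [h2, mul_sub, sub_mul, mul_one, h3]
  rw [h1]
  obtain ⟨n, hn⟩ := ha
  refine ⟨n, ?_⟩
  have h4 : hat (g⁻¹ : Γ).1 * hat g.1 = 1 := hat_inv_mul g.1
  have h5 : ∀ m : ℕ, (hat g.1 * (hat a.1 - 1) * hat (g⁻¹ : Γ).1) ^ m =
      hat g.1 * (hat a.1 - 1) ^ m * hat (g⁻¹ : Γ).1 := by
    intro m
    induction m with
    | zero =>
      rw [pow_zero, pow_zero, mul_one]
      exact (hat_mul_inv g.1).symm
    | succ m ih =>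
      rw [pow_succ, ih, pow_succ]
      calc hat g.1 * (hat a.1 - 1) ^ m * hat (g⁻¹ : Γ).1 *
            (hat g.1 * (hat a.1 - 1) * hat (g⁻¹ : Γ).1)
          = hat g.1 * (hat a.1 - 1) ^ m * (hat (g⁻¹ : Γ).1 * hat g.1) * (hat a.1 - 1) *
              hat (g⁻¹ : Γ).1 := by simp only [mul_assoc]
        _ = hat g.1 * ((hat a.1 - 1) ^ m * (hat a.1 - 1)) * hat (g⁻¹ : Γ).1 := by
            rw [h4]; simp only [mul_assoc, mul_one]
  rw [h5, hn, mul_zero, zero_mul]

/-- The main theorem for the group. -/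
theorem vanish_of_solvable (D : Geo E) (hpos : 0 < Module.finrank ℝ E) (N : Subgroup D.Γ)
    [N.Normal] (hne : N ≠ ⊥) [Group.IsSolvable N]
    (hcc : ∃ K ⊆ D.X, IsCompact K ∧ ∀ x ∈ D.X, ∃ g ∈ D.Γ, g x ∈ K) : Vanish D := by
  obtain ⟨A, hA, _, hA1, hab⟩ := exists_abelian_normal N hne
  have hUn : (unip D.Γ A hab).Normal := unip_normal D.Γ A hab
  by_cases h : unip D.Γ A hab = ⊥
  · refine vanish_of_no_unipotent D hpos A hab hA1 (fun a ha hu => ?_) hcc
    have h1 : a ∈ unip D.Γ A hab := ⟨ha, hu⟩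
    rw [h, Subgroup.mem_bot] at h1
    exact h1
  · exact vanish_of_unipotent D hpos (unip D.Γ A hab) (fun a ha b hb => hab a ha.1 b hb.1) h
      (fun a ha => ha.2)

end Pool.SV
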