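import Pool.Agent.SV.Flag
import Pool.Agent.SV.Line
import Pool.Agent.Helper84.SV.DefsK
import Pool.Agent.Helper84.SV.Main
import Pool.Agent.Helper84.SV.Stmt

open Set Finset

set_option linter.unusedSectionVars false

namespace Pool.SV

variable {E : Type*} [NormedAddCommGroup E] [NormedSpace ℝ E] [FiniteDimensional ℝ E]

theorem vanish_of_hasAbNormal (D : Geo E) (hpos : 0 < Module.finrank ℝ E)
    (h : HasAbNormal D.Γ)
    (hcc : ∃ K ⊆ D.X, IsCompact K ∧ ∀ x ∈ D.X, ∃ g ∈ D.Γ, g x ∈ K) : Vanish D := by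
  obtain ⟨A, hA, hA1, hab⟩ := h
  have hs : Group.IsSolvable A := Group.isSolvable_of_comm (fun a b =>
    Subtype.ext (hab a.1 a.2 b.1 b.2))
  exact vanish_of_solvable D hpos A hA1 hcc

theorem vanish_of_simFlag (D : Geo E) (hpos : 0 < Module.finrank ℝ E)
    (hcc : ∃ K ⊆ D.X, IsCompact K ∧ ∀ x ∈ D.X, ∃ g ∈ D.Γ, g x ∈ K)
    (hline : ∃ v : E, v ≠ 0 ∧ ∀ x ∈ D.X, ∀ t : ℝ, x + t • v ∈ D.X)
    (hflag : SimFlag D.Γ D.X) : Vanish D := by
  rcases flag_disc D hflag with h | ⟨e, he, hrange, hd⟩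
  · exact vanish_of_hasAbNormal D hpos h hcc
  · exact absurd hd (not_discMod D hcc hline e he hrange)

/-- The statement with a subgroup of finite index. -/
theorem vanish_of_virtual_simFlag (D : Geo E) (hpos : 0 < Module.finrank ℝ E)
    (hcc : ∃ K ⊆ D.X, IsCompact K ∧ ∀ x ∈ D.X, ∃ g ∈ D.Γ, g x ∈ K)
    (hline : ∃ v : E, v ≠ 0 ∧ ∀ x ∈ D.X, ∀ t : ℝ, x + t • v ∈ D.X)
    (Γ₁ : Subgroup (E ≃ᵃ[ℝ] E)) (hΓ₁ : Γ₁ ≤ D.Γ) (hfin : Γ₁.relIndex D.Γ ≠ 0)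
    (hflag : SimFlag Γ₁ D.X) : Vanish D := by
  have heq : (geoSub D (Γ₁.subgroupOf D.Γ)).Γ = Γ₁ := by
    change (Γ₁.subgroupOf D.Γ).map D.Γ.subtype = Γ₁
    rw [Subgroup.map_subgroupOf_eq_of_le hΓ₁]
  have hfi : (Γ₁.subgroupOf D.Γ).FiniteIndex := ⟨hfin⟩
  have hV : Vanish (geoSub D (Γ₁.subgroupOf D.Γ)) := by
    refine vanish_of_simFlag _ hpos (cocompact_geoSub D _ hcc) hline ?_
    rw [heq]
    exact hflag
  refine vanish_transfer D (geoSub D (Γ₁.subgroupOf D.Γ)) (Subgroup.map_subtype_le _) ?_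
    subset_rfl hV
  rw [relIndex_geoSub]
  exact hfin

/-- If the lineality space has dimension at most one the flag exists. -/
theorem simFlag_of_finrank_le_one (Γ : Subgroup (E ≃ᵃ[ℝ] E)) (X : Set E)
    (hinv : ∀ g ∈ Γ, ∀ x ∈ X, g x ∈ X) (L : Submodule ℝ E)
    (hL : ∀ v, v ∈ L ↔ ∀ x ∈ X, ∀ t : ℝ, x + t • v ∈ X) (h1 : Module.finrank ℝ L ≤ 1) :
    SimFlag Γ X := by
  obtain ⟨w, hw⟩ := finrank_le_one_iff.mp h1
  refine ⟨1, fun i => if i = 0 then ⊥ else L, by simp, by simpa using hL, ?_⟩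
  intro i hi
  have h0 : i = 0 := by omega
  subst h0
  simp only [↓reduceIte, zero_add, one_ne_zero, bot_le, true_and]
  refine ⟨normSeminorm ℝ E, fun v _ => by simp, fun g hg => ?_⟩
  have hlin : ∀ v ∈ L, g.linear v ∈ L := by
    intro v hv
    rw [hL] at hv ⊢
    intro x hx t
    have h2 := hinv g hg _ (hv (g⁻¹ x) (hinv g⁻¹ (Γ.inv_mem hg) x hx) t)
    rw [aff_eq' g, map_add, map_smul] at h2
    have h3 : x = g.linear (g⁻¹ x) + g 0 := by
      rw [← aff_eq']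
      exact (g.apply_symm_apply x).symm
    nth_rewrite 1 [h3]
    convert h2 using 1
    abel
  obtain ⟨c, hc⟩ := hw ⟨g.linear w, hlin w w.2⟩
  refine ⟨|c|, fun v hv => ⟨hlin v hv, ?_⟩⟩
  obtain ⟨a, ha⟩ := hw ⟨v, hv⟩
  have ha' : v = a • (w : E) := (congrArg Subtype.val ha).symm
  have hc' : g.linear (w : E) = c • (w : E) := (congrArg Subtype.val hc).symm
  simp only [coe_normSeminorm]
  rw [ha', map_smul, hc', norm_smul, norm_smul, norm_smul, Real.norm_eq_abs, Real.norm_eq_abs]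
  ring

end Pool.SV
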