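import Pool.Agent.Helper84.SV.Mods

open Set Finset

set_option linter.unusedSectionVars false

namespace Pool.SV

variable {E : Type*} [NormedAddCommGroup E] [NormedSpace ℝ E] [FiniteDimensional ℝ E]

/-- The generator with coordinates `s`. -/
noncomputable def gen {k : ℕ} (T : Fin k → Alg E) (s : Fin k → ℝ) : Alg E := ∑ i, s i • T i

theorem gen_add {k : ℕ} (T : Fin k → Alg E) (s t : Fin k → ℝ) :
    gen T (s + t) = gen T s + gen T t := by
  simp [gen, add_smul, Finset.sum_add_distrib]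

theorem commute_gen {k : ℕ} (T : Fin k → Alg E) (hcomm : ∀ i i', Commute (T i) (T i'))
    (s t : Fin k → ℝ) : Commute (gen T s) (gen T t) := by
  unfold gen
  apply Commute.sum_left
  intro i _
  apply Commute.sum_right
  intro i' _
  exact ((hcomm i i').smul_left _).smul_right _

theorem isGen_gen {k : ℕ} (T : Fin k → Alg E) (hT : ∀ i v, (T i v).2 = 0) (s : Fin k → ℝ) :
    IsGen (gen T s) := isGen_sum hT s

theorem exp_gen_add {k : ℕ} (T : Fin k → Alg E) (hcomm : ∀ i i', Commute (T i) (T i'))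
    (s t : Fin k → ℝ) : NormedSpace.exp (gen T (s + t)) =
      NormedSpace.exp (gen T s) * NormedSpace.exp (gen T t) := by
  rw [gen_add, NormedSpace.exp_add_of_commute (commute_gen T hcomm s t)]

theorem continuous_gen {k : ℕ} (T : Fin k → Alg E) : Continuous (gen T) := by
  unfold gen
  fun_prop

/-- The largest subset of `X` invariant under the real flow. -/
def flowCore {k : ℕ} (T : Fin k → Alg E) (X : Set E) : Set E :=
  {x | ∀ s : Fin k → ℝ, act (NormedSpace.exp (gen T s)) x ∈ X}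

theorem flowCore_subset {k : ℕ} (T : Fin k → Alg E) (X : Set E) : flowCore T X ⊆ X := by
  intro x hx
  have := hx 0
  have h0 : gen T 0 = 0 := by simp [gen]
  rwa [h0, NormedSpace.exp_zero, act_one] at this

theorem flowCore_convex {k : ℕ} (T : Fin k → Alg E) (X : Set E) (hX : Convex ℝ X) :
    Convex ℝ (flowCore T X) := by
  intro x hx y hy a b ha hb hab s
  rw [act_convex x y a b hab]
  exact hX (hx s) (hy s) ha hb hab

theorem flowCore_flow {k : ℕ} (T : Fin k → Alg E) (X : Set E)
    (hcomm : ∀ i i', Commute (T i) (T i')) (hT : ∀ i v, (T i v).2 = 0) (s : Fin k → ℝ)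
    (x : E) (hx : x ∈ flowCore T X) : act (NormedSpace.exp (gen T s)) x ∈ flowCore T X := by
  intro t
  rw [← act_mul (isAff_exp (isGen_gen T hT s)), ← exp_gen_add T hcomm]
  exact hx _

theorem flowCore_isOpen {k : ℕ} (T : Fin k → Alg E) (X : Set E) (hX : IsOpen X)
    (hcomm : ∀ i i', Commute (T i) (T i')) (hT : ∀ i v, (T i v).2 = 0)
    (hinv : ∀ m : Fin k → ℤ, ∀ x ∈ X, act (NormedSpace.exp (gen T (fun i => (m i : ℝ)))) x ∈ X) :
    IsOpen (flowCore T X) := by
  have hcont : Continuous (fun p : (Fin k → ℝ) × E => act (NormedSpace.exp (gen T p.1)) p.2) := by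
    have h1 : Continuous (fun p : (Fin k → ℝ) × E => (NormedSpace.exp (gen T p.1), p.2)) := by
      refine Continuous.prodMk ?_ continuous_snd
      exact NormedSpace.exp_continuous.comp ((continuous_gen T).comp continuous_fst)
    exact continuous_act_uncurry.comp h1
  have heq : flowCore T X = {x | ∀ s ∈ Set.pi Set.univ (fun _ : Fin k => Set.Icc (0 : ℝ) 1),
      act (NormedSpace.exp (gen T s)) x ∈ X} := by
    ext x
    constructor
    · intro hx s _
      exact hx s
    · intro hx s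
      have h2 : s = (fun i => ((⌊s i⌋ : ℤ) : ℝ)) + fun i => Int.fract (s i) := by
        funext i
        simp only [Pi.add_apply]
        exact (Int.floor_add_fract (s i)).symm
      rw [h2, exp_gen_add T hcomm, act_mul (isAff_exp (isGen_gen T hT _))]
      refine hinv (fun i => ⌊s i⌋) _ (hx _ ?_)
      intro i _
      exact ⟨Int.fract_nonneg _, (Int.fract_lt_one _).le⟩
  rw [heq]
  have hcomp : IsCompact (Set.pi Set.univ (fun _ : Fin k => Set.Icc (0 : ℝ) 1)) :=
    isCompact_univ_pi fun _ => isCompact_Icc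
  rw [isOpen_iff_mem_nhds]
  intro x hx
  have hopen : IsOpen {p : (Fin k → ℝ) × E | act (NormedSpace.exp (gen T p.1)) p.2 ∈ X} :=
    hX.preimage hcont
  obtain ⟨u, v, hu, hv, h1, h2, h3⟩ := generalized_tube_lemma hcomp (isCompact_singleton (x := x))
    hopen (by
      rintro ⟨s, y⟩ ⟨hs, hy⟩
      have hy' : y = x := hy
      change act (NormedSpace.exp (gen T s)) y ∈ X
      rw [hy']
      exact hx s hs)
  refine Filter.mem_of_superset (hv.mem_nhds (h2 rfl)) ?_
  intro y hy s hs
  exact h3 (Set.mk_mem_prod (h1 hs) hy)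

theorem exists_conj {k : ℕ} (T : Fin k → Alg E) (P : Alg E) (Q : Alg E)
    (hconj : ∀ i, P * T i * Q ∈ Submodule.span ℝ (Set.range T)) (s : Fin k → ℝ) :
    ∃ t, P * gen T s * Q = gen T t := by
  have h1 : P * gen T s * Q ∈ Submodule.span ℝ (Set.range T) := by
    unfold gen
    rw [Finset.mul_sum, Finset.sum_mul]
    apply Submodule.sum_mem
    intro i _
    rw [mul_smul_comm, smul_mul_assoc]
    exact Submodule.smul_mem _ _ (hconj i)
  rw [Submodule.mem_span_range_iff_exists_fun] at h1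
  obtain ⟨c, hc⟩ := h1
  exact ⟨c, hc.symm⟩

theorem exp_conj_hat (g : E ≃ᵃ[ℝ] E) (Y : Alg E) :
    hat g * NormedSpace.exp Y * hat g⁻¹ = NormedSpace.exp (hat g * Y * hat g⁻¹) := by
  let u : (Alg E)ˣ := ⟨hat g, hat g⁻¹, hat_mul_inv g, hat_inv_mul g⟩
  exact (NormedSpace.exp_units_conj u Y).symm

theorem flowCore_inv {k : ℕ} (T : Fin k → Alg E) (X : Set E)
    (hT : ∀ i v, (T i v).2 = 0) (g : E ≃ᵃ[ℝ] E) (hgX : ∀ x ∈ X, g x ∈ X)
    (hconj : ∀ i, hat g⁻¹ * T i * hat g ∈ Submodule.span ℝ (Set.range T))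
    (x : E) (hx : x ∈ flowCore T X) : g x ∈ flowCore T X := by
  intro s
  obtain ⟨t, ht⟩ := exists_conj T (hat g⁻¹) (hat g) hconj s
  have h1 : NormedSpace.exp (gen T s) * hat g = hat g * NormedSpace.exp (gen T t) := by
    rw [← ht]
    have h2 := exp_conj_hat g⁻¹ (gen T s)
    rw [inv_inv] at h2
    rw [← h2, ← mul_assoc, ← mul_assoc, hat_mul_inv, one_mul]
  rw [← act_hat g x, ← act_mul (isAff_hat g), h1, act_mul, act_hat]
  · exact hgX _ (hx t)
  · exact isAff_exp (isGen_gen T hT t)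

/-- The domain of a normalised vector group. -/
noncomputable def geoU (D : Geo E) {k : ℕ} (T : Fin k → Alg E)
    (hcomm : ∀ i i', Commute (T i) (T i')) (hT : ∀ i v, (T i v).2 = 0)
    (hinv : ∀ m : Fin k → ℤ, ∀ x ∈ D.X,
      act (NormedSpace.exp (gen T (fun i => (m i : ℝ)))) x ∈ D.X)
    (hconj : ∀ (g : D.Γ) (i : Fin k), hat g.1 * T i * hat (g⁻¹ : D.Γ).1 ∈
      Submodule.span ℝ (Set.range T))
    (hne : ∃ y, ∀ s : Fin k → ℝ, act (NormedSpace.exp (∑ i, s i • T i)) y ∈ D.X) : Geo E where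
  Γ := D.Γ
  X := flowCore T D.X
  isOpen := flowCore_isOpen T D.X D.isOpen hcomm hT hinv
  convex := flowCore_convex T D.X D.convex
  nonempty := hne
  inv := by
    intro g hg x hx
    refine flowCore_inv T D.X hT g (D.inv g hg) (fun i => ?_) x hx
    have := hconj (⟨g, hg⟩⁻¹ : D.Γ) i
    rw [inv_inv] at this
    exact this
  free := fun g hg x hx => D.free g hg x (flowCore_subset T D.X hx)
  pd := fun K hK hc => D.pd K (hK.trans (flowCore_subset T D.X)) hc

end Pool.SV
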