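import Pool.Agent.Helper84.SV.Defs

open Set Finset

namespace Pool.SV

variable {E : Type*} [NormedAddCommGroup E] [NormedSpace ℝ E]

/-- Linear maps of `E × ℝ` that preserve the height. -/
def IsAff (U : Alg E) : Prop := ∀ v, (U v).2 = v.2

theorem isAff_one : IsAff (1 : Alg E) := fun _ => rfl

theorem IsAff.mul {U V : Alg E} (hU : IsAff U) (hV : IsAff V) : IsAff (U * V) := by
  intro v
  rw [mul_apply_eq_comp, hU, hV]

theorem act_mul {U V : Alg E} (hV : IsAff V) (x : E) :
    act (U * V) x = act U (act V x) := by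
  unfold act
  rw [mul_apply_eq_comp]
  have : V (x, 1) = ((V (x, 1)).1, (1 : ℝ)) := by
    ext
    · rfl
    · exact hV (x, 1)
  rw [← this]

theorem act_one (x : E) : act (1 : Alg E) x = x := rfl

theorem apply_of_isAff {U : Alg E} (hU : IsAff U) (x : E) : U (x, 1) = (act U x, 1) := by
  ext
  · rfl
  · exact hU (x, 1)

theorem act_midpoint {U : Alg E} (x y : E) :
    act U ((2 : ℝ)⁻¹ • (x + y)) = (2 : ℝ)⁻¹ • (act U x + act U y) := by
  unfold act
  have h : (((2 : ℝ)⁻¹ • (x + y), (1 : ℝ)) : E × ℝ) = (2 : ℝ)⁻¹ • ((x, 1) + (y, 1)) := by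
    ext
    · rfl
    · norm_num
  rw [h, map_smul, map_add]
  rfl

theorem continuous_act (U : Alg E) : Continuous (act U) := by
  unfold act
  fun_prop

theorem continuous_act_uncurry : Continuous (fun p : Alg E × E => act p.1 p.2) := by
  unfold act
  fun_prop

theorem act_convex {U : Alg E} (x y : E) (a b : ℝ) (hab : a + b = 1) :
    act U (a • x + b • y) = a • act U x + b • act U y := by
  unfold act
  have h : ((a • x + b • y, (1 : ℝ)) : E × ℝ) = a • (x, 1) + b • (y, 1) := by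
    ext
    · rfl
    · simp [hab]
  rw [h, map_add, map_smul, map_smul]
  rfl

section FD

variable [FiniteDimensional ℝ E]

@[simp] theorem hat_apply (g : E ≃ᵃ[ℝ] E) (v : E × ℝ) :
    hat g v = (g.linear v.1 + v.2 • g 0, v.2) := rfl

theorem isAff_hat (g : E ≃ᵃ[ℝ] E) : IsAff (hat g) := fun _ => rfl

theorem aff_eq (g : E ≃ᵃ[ℝ] E) (x : E) : g x = g.linear x + g 0 := by
  have h := g.map_vadd 0 x
  simpa using h

theorem act_hat (g : E ≃ᵃ[ℝ] E) (x : E) : act (hat g) x = g x := by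
  simp [act, aff_eq g x]

theorem hat_one : hat (1 : E ≃ᵃ[ℝ] E) = 1 := by
  apply ContinuousLinearMap.ext
  intro v
  rw [hat_apply]
  have h1 : (1 : E ≃ᵃ[ℝ] E).linear v.1 = v.1 := rfl
  have h2 : (1 : E ≃ᵃ[ℝ] E) 0 = 0 := rfl
  rw [h1, h2, smul_zero, add_zero]
  rfl

theorem hat_mul (g h : E ≃ᵃ[ℝ] E) : hat (g * h) = hat g * hat h := by
  apply ContinuousLinearMap.ext
  intro v
  rw [mul_apply_eq_comp, hat_apply, hat_apply, hat_apply]
  have h1 : (g * h) 0 = g.linear (h 0) + g 0 := by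
    rw [← aff_eq]
    rfl
  have h2 : (g * h).linear v.1 = g.linear (h.linear v.1) := rfl
  rw [h1, h2]
  ext
  · simp only [map_add, map_smul, smul_add]
    abel
  · rfl

theorem hat_mul_inv (g : E ≃ᵃ[ℝ] E) : hat g * hat g⁻¹ = 1 := by
  rw [← hat_mul, mul_inv_cancel, hat_one]

theorem hat_inv_mul (g : E ≃ᵃ[ℝ] E) : hat g⁻¹ * hat g = 1 := by
  rw [← hat_mul, inv_mul_cancel, hat_one]

theorem hat_injective : Function.Injective (hat : (E ≃ᵃ[ℝ] E) → Alg E) := by
  intro g h hgh
  ext x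
  rw [← act_hat g, ← act_hat h, hgh]

/-! ### The exponential -/

noncomputable instance instRat : NormedAlgebra ℚ (Alg E) :=
  NormedAlgebra.restrictScalars ℚ ℝ (Alg E)

/-- Generators of affine flows. -/
def IsGen (T : Alg E) : Prop := ∀ v, (T v).2 = 0

theorem isGen_sum {k : ℕ} {T : Fin k → Alg E} (hT : ∀ i v, (T i v).2 = 0) (s : Fin k → ℝ) :
    IsGen (∑ i, s i • T i) := by
  intro v
  rw [_root_.sum_apply, Prod.snd_sum]
  apply Finset.sum_eq_zero
  intro i _
  rw [smul_apply, Prod.smul_snd, hT, smul_zero]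

theorem IsGen.smul {T : Alg E} (hT : IsGen T) (t : ℝ) : IsGen (t • T) := by
  intro v
  rw [smul_apply, Prod.smul_snd, hT, smul_zero]

theorem isAff_exp {T : Alg E} (hT : IsGen T) : IsAff (NormedSpace.exp T) := by
  intro v
  have h1 := (NormedSpace.exp_series_hasSum_exp' (𝕂 := ℝ) T)
  have h2 := h1.mapL (ContinuousLinearMap.apply ℝ (E × ℝ) v)
  have h3 := h2.mapL (ContinuousLinearMap.snd ℝ E ℝ)
  have h4 : HasSum (fun n : ℕ => if n = 0 then v.2 else 0) v.2 := by
    convert hasSum_ite_eq (0 : ℕ) v.2 using 1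
  have h5 : (fun n : ℕ => (ContinuousLinearMap.snd ℝ E ℝ)
      ((ContinuousLinearMap.apply ℝ (E × ℝ) v) ((n.factorial : ℝ)⁻¹ • T ^ n))) =
      fun n : ℕ => if n = 0 then v.2 else 0 := by
    funext n
    cases n with
    | zero => simp
    | succ n =>
      simp only [ContinuousLinearMap.apply_apply, smul_apply,
        ContinuousLinearMap.coe_snd', Prod.smul_snd, pow_succ']
      rw [mul_apply_eq_comp, hT]
      simp
  rw [h5] at h3
  exact h3.unique h4

end FD

end Pool.SV
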