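import Pool.Agent.SV.Chain
import Pool.Agent.SV.Subdiv
import Pool.Agent.SV.Alt
import Pool.Agent.SV.Rank
import Pool.Agent.SV.Mean
import Pool.Agent.SV.Sing
import Pool.Agent.SV.Nu
import Pool.Agent.SV.Log
import Pool.Agent.SV.Hull
import Pool.Agent.SV.Spline
import Pool.Agent.SV.Cent
import Pool.Agent.SV.Cone
import Pool.Agent.SV.Flow
import Pool.Agent.SV.Transfer

/-! All modules of project SV. -/
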