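import Pool.Agent.Helper84.SV.StmtK

set_option autoImplicit false

namespace Pool.SV

theorem resK (n : ℕ) (Γ : Subgroup (Aff (n + 1))) (X : Set (EuclideanSpace ℝ (Fin (n + 1))))
    (hX : Divides Γ X) (hline : ContainsLine X) (hflag : VirtuallySimFlag Γ X) (M : Type*)
    [TopologicalSpace M] (π : X → M) (hπ : IsOrbitSpace Γ X M π) : ZeroSeminorm M n := by
  obtain ⟨Γ₁, hle, hfin, hF⟩ := hflag
  let D : Geo (EuclideanSpace ℝ (Fin (n + 1))) :=
    { Γ := Γ
      X := X
      isOpen := hX.isOpen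
      convex := hX.convex
      nonempty := hX.nonempty
      inv := hX.inv
      free := hX.free
      pd := fun K hK hc => hX.pd K hK hc }
  have hrank : Module.finrank ℝ (EuclideanSpace ℝ (Fin (n + 1))) = n + 1 := by
    simp
  have hV : Vanish D := vanish_of_virtual_simFlag D (by rw [hrank]; omega) hX.cocompact hline Γ₁
    hle hfin hF
  intro z hz ε hε
  refine of_vanish D hV M π hπ.quot ?_ n hrank z hz ε hε
  intro x y
  rw [hπ.fib]
  constructor
  · rintro ⟨g, hg, h⟩
    exact ⟨⟨g, hg⟩, Subtype.ext h⟩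
  · rintro ⟨g, h⟩
    exact ⟨g.1, g.2, congrArg Subtype.val h⟩

end Pool.SV
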