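import Pool.Agent.Helper84.SV.Stmt
import Pool.Agent.Helper84.SV.FinalK

open Set

namespace Pool.SV

/-- `X` contains a line (`X` convex and open): `X` is invariant under the translations by the
multiples of some nonzero vector `v`. -/
def ContainsLine {m : ℕ} (X : Set (EuclideanSpace ℝ (Fin m))) : Prop :=
  ∃ v : EuclideanSpace ℝ (Fin m), v ≠ 0 ∧ ∀ x ∈ X, ∀ t : ℝ, x + t • v ∈ X

/-- A subgroup of finite index of `Γ` preserves a flag of the lineality space of `X`, and acts by
similarities on its quotients. -/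
def VirtuallySimFlag {m : ℕ} (Γ : Subgroup (Aff m)) (X : Set (EuclideanSpace ℝ (Fin m))) : Prop :=
  ∃ Γ₁ : Subgroup (Aff m), Γ₁ ≤ Γ ∧ Γ₁.relIndex Γ ≠ 0 ∧ SimFlag Γ₁ X

end Pool.SV
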